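import Pool.Agent.H19.UN.SpN
import Pool.Agent.H19.UT.Aff

/-!
Project UN, row N15: all affine coordinates, for fixed `K` (helper47).
-/

set_option autoImplicit false
set_option maxHeartbeats 400000

open Polynomial Pool.Agent.K1

namespace Pool.Agent.H19.UT

section n15

variable {K L : Type} [Field K] [Field L] [Algebra K L]

/-- Division by an element of nonnegative order. -/
theorem n15_nat {p m : ℕ} {k : Type} [Field k] [Algebra k K] [Algebra k L] [IsScalarTower k K L]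
    (h3 : SpGauss) (hco : SpCoord) (h4 : SpGf) (h : SpCmpN) (hB : Base p k) (hF : FgN (m + 2) k K)
    {s : ValuationSubring K} (hs : IsDiscV s) (hT : TrN (m + 1) k s) (d : Dat L) (n : ℕ) :
    ∀ σ : L, Coord K L σ → HDat (K := K) σ d → ∀ c : K, c ≠ 0 → ordV s c = n →
      (D03P s d σ ↔ D03P s d (σ / algebraMap K L c)) := by
  induction n with
  | zero =>
    intro σ hσ _ c hc hn
    have hcs : c ∈ s := (mem_iff_ordV hs hc).2 (by rw [hn]; simp)
    have hci : c⁻¹ ∈ s := (mem_iff_ordV hs (inv_ne_zero hc)).2 (by rw [ordV_inv hs hc, hn]; simp)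
    obtain ⟨E, hE⟩ := (h3 K L σ hσ s hs).1
    have hE' := d03_unit h3 hσ hs s.zero_mem hc hcs hci hE
    rw [map_zero, sub_zero] at hE'
    exact d03_common h3 hσ (d03_coord hco hσ hc) hs d hE hE'
  | succ n ih =>
    intro σ hσ hd c hc hn
    obtain ⟨π, hπ, _⟩ := id hs
    have hπ0 : π ≠ 0 := hπ.1
    have hπ1 : ordV s π = 1 := (isUnifV_iff hs hπ0).1 hπ
    have hσ' := d03_coord hco hσ hπ0
    have hd' := d03_hdat' hd hπ0
    have hcq : c / π ≠ 0 := div_ne_zero hc hπ0
    have hcn : ordV s (c / π) = n := by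
      rw [div_eq_mul_inv, ordV_mul hs hc (inv_ne_zero hπ0), ordV_inv hs hπ0, hn, hπ1]
      push_cast
      ring
    have h5 := ih _ hσ' hd' (c / π) hcq hcn
    rw [d03_divdiv σ hπ0 hc] at h5
    rw [← h5]
    obtain ⟨⟨g1, hg1⟩, -⟩ := h4 p k K L hB σ hσ d hd
    obtain ⟨⟨g2, hg2⟩, -⟩ := h4 p k K L hB _ hσ' d hd'
    have h6 := h p m k K L hB hF σ hσ d hd s hs hT π hπ1 hπ0 _ _ (hg1 s hs) (hg2 s hs)
    rw [d03_val h3 hσ hs d (hg1 s hs), d03_val h3 hσ' hs d (hg2 s hs)]
    constructor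
    · intro h7
      have h8 := torsV_mul (torsV_inv h6) h7
      have h9 : (g1 s * (g2 s)⁻¹)⁻¹ * g1 s = g2 s := by group
      rwa [h9] at h8
    · intro h7
      exact torsV_of_div h6 h7

/-- Division by an arbitrary element. -/
theorem n15_div {p m : ℕ} {k : Type} [Field k] [Algebra k K] [Algebra k L] [IsScalarTower k K L]
    (h3 : SpGauss) (hco : SpCoord) (h4 : SpGf) (h : SpCmpN) (hB : Base p k) (hF : FgN (m + 2) k K)
    {s : ValuationSubring K} (hs : IsDiscV s) (hT : TrN (m + 1) k s) {d : Dat L}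
    {σ : L} (hσ : Coord K L σ) (hd : HDat (K := K) σ d) {c : K} (hc : c ≠ 0) :
    D03P s d σ ↔ D03P s d (σ / algebraMap K L c) := by
  rcases le_total 0 (ordV s c) with h0 | h0
  · exact n15_nat h3 hco h4 h hB hF hs hT d (ordV s c).toNat σ hσ hd c hc
      (Int.toNat_of_nonneg h0).symm
  · have h1 : ordV s c⁻¹ = (-ordV s c).toNat := by
      rw [ordV_inv hs hc, Int.toNat_of_nonneg (by linarith)]
    have h2 := n15_nat h3 hco h4 h hB hF hs hT d _ _ (d03_coord hco hσ hc) (d03_hdat' hd hc)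
      c⁻¹ (inv_ne_zero hc) h1
    have h5 : σ / algebraMap K L c / algebraMap K L c⁻¹ = σ := by
      have h6 : algebraMap K L c ≠ 0 := (_root_.map_ne_zero _).2 hc
      rw [map_inv₀]
      field_simp
    rw [h5] at h2
    exact h2.symm

end n15

theorem sp_affN (h3 : SpGauss) (hco : SpCoord) (h4 : SpGf) (h : SpCmpN) : SpAffN := by
  intro p n k K L _ _ _ _ _ _ _ hB hF τ hτ d hd s hs hT htr a c hc
  -- a coordinate `τ / c₀` for which the translation is integral
  obtain ⟨c₀, hc₀, hac⟩ : ∃ c₀ : K, c₀ ≠ 0 ∧ a / c₀ ∈ s := by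
    by_cases ha : a ∈ s
    · exact ⟨1, one_ne_zero, by rwa [div_one]⟩
    · have ha0 : a ≠ 0 := fun h0 => ha (h0 ▸ s.zero_mem)
      exact ⟨a, ha0, by rw [div_self ha0]; exact s.one_mem⟩
  have hτ0 := d03_coord hco hτ hc₀
  have h1 : D03P s d (τ / algebraMap K L c₀) :=
    (n15_div h3 hco h4 h hB hF hs hT hτ hd hc₀).1 htr
  have hτ1 : Coord K L ((τ - algebraMap K L a) / algebraMap K L c₀) :=
    (hco K L τ hτ).1 a c₀ hc₀
  have h2 : D03P s d ((τ - algebraMap K L a) / algebraMap K L c₀) := by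
    obtain ⟨E, hE⟩ := (h3 K L _ hτ0 s hs).1
    have hE' := d03_unit h3 hτ0 hs hac one_ne_zero s.one_mem (by rw [inv_one]; exact s.one_mem) hE
    have h5 : (τ / algebraMap K L c₀ - algebraMap K L (a / c₀)) / algebraMap K L 1 =
        (τ - algebraMap K L a) / algebraMap K L c₀ := by
      rw [map_one, div_one, map_div₀, sub_div]
    rw [h5] at hE'
    exact (d03_common h3 hτ0 hτ1 hs d hE hE').1 h1
  have hd1 := d03_hdat hd a hc₀
  have h6 := (n15_div h3 hco h4 h hB hF hs hT hτ1 hd1 (div_ne_zero hc hc₀)).1 h2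
  rw [d03_divdiv _ hc₀ hc] at h6
  exact h6

end Pool.Agent.H19.UT
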