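import Pool.Agent.H19.UT.SpR
import Pool.Agent.H19.UT.SpE2

/-!
Project UN (project UT in arbitrary dimension): statements (helper19).
-/

set_option autoImplicit false
set_option maxHeartbeats 400000

open Polynomial Pool.Agent.K1

namespace Pool.Agent.H19.UT

section defs

/-- The residue field of `s` contains `n` elements algebraically independent over `k`. -/
def TrN (n : ℕ) (k : Type) {K : Type} [Field k] [Field K] [Algebra k K]
    (s : ValuationSubring K) : Prop :=
  ∃ z : Fin n → K, ∀ P : MvPolynomial (Fin n) k, P ≠ 0 →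
    MvPolynomial.aeval z P ∈ s ∧ MvPolynomial.aeval z P ∉ s.nonunits

/-- `K` is a finitely generated field over `k` of transcendence degree at most `n`. -/
structure FgN (n : ℕ) (k K : Type) [Field k] [Field K] [Algebra k K] : Prop where
  fg : ∃ S : Finset K, ∀ E : Subfield K, (∀ c : k, algebraMap k K c ∈ E) → (∀ a ∈ S, a ∈ E) →
    E = ⊤
  dim : ∀ z : Fin (n + 1) → K, ∃ P : MvPolynomial (Fin (n + 1)) k,
    P ≠ 0 ∧ MvPolynomial.aeval z P = 0

/-- The theorem for the field `K`, of transcendence degree `n + 1`: all data are, up to torsion and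
multiples, given by one element. -/
def ThmK (n : ℕ) (k K : Type) [Field k] [Field K] [Algebra k K] : Prop := ∀ d : Dat K,
  ∃ (N : ℕ) (β : Sy K), 0 < N ∧ ∀ s : ValuationSubring K, IsDiscV s → TrN n k s →
    TorsV s (sm s β * (d.val s ^ N)⁻¹)

/-- The comparison property: for all finite extensions of `K` the data are trivial at the Gauss
valuations for all affine coordinates. -/
def CoordTrivN (n : ℕ) (k : Type) {K L : Type} [Field k] [Field K] [Field L] [Algebra k K]
    [Algebra K L] (d : Dat L) (τ : L) : Prop :=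
  ∀ (K2 L2 : Type) [Field K2] [Field L2] [Algebra k K2] [Algebra K K2] [IsScalarTower k K K2]
    [FiniteDimensional K K2] [Algebra K2 L2] (φ : L →+* L2),
    (∀ a : K, φ (algebraMap K L a) = algebraMap K2 L2 (algebraMap K K2 a)) →
    Coord K2 L2 (φ τ) → ∀ a c : K2, c ≠ 0 → ∀ s : ValuationSubring K2, IsDiscV s → TrN n k s →
    ∀ E : ValuationSubring L2,
      IsGauss s ((φ τ - algebraMap K2 L2 a) / algebraMap K2 L2 c) E → (d.map φ).Triv E

/-- The integral closures of finitely generated domains over `k` are finitely generated. -/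
def RICk (k : Type) [Field k] : Prop := ∀ (K : Type) [Field K] [Algebra k K]
  (A : Subalgebra k K), A.FG → (∀ z : K, ∃ a ∈ A, ∃ d ∈ A, d ≠ 0 ∧ z * d = a) →
  ∃ A1 : Subalgebra k K, A1.FG ∧ ∀ z : K, z ∈ A1 ↔ IsIntegral A z

/-- `f0` is, up to a unit of value one at `τ = a`, the element `f`. -/
def RedAt {K L : Type} [Field K] [Field L] [Algebra K L] (s : ValuationSubring K) (τ : L)
    (a : K) (f : Lˣ) (f0 : Kˣ) : Prop :=
  ∃ U W : K[X], (∀ n, U.coeff n ∈ s) ∧ (∀ n, W.coeff n ∈ s) ∧ U.eval a = 1 ∧ W.eval a = 1 ∧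
    (f : L) * aeval τ W = algebraMap K L (f0 : K) * aeval τ U

end defs

/-! ### Data on `K` from data on `K(t)` -/

/-- N01: Gauss valuations over arbitrary valuation rings exist. -/
def SpGaussEx : Prop := ∀ (K L : Type) [Field K] [Field L] [Algebra K L] (τ : L), Coord K L τ →
  ∀ V : ValuationSubring K, ∃ E : ValuationSubring L, IsGauss V τ E

/-- N02: evaluation of a torsion element at a point. -/
def SpEvalG : Prop := ∀ (K L : Type) [Field K] [Field L] [Algebra K L] (τ : L), Coord K L τ →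
  ∀ (s : ValuationSubring K) (E : ValuationSubring L), IsGauss s τ E → ∀ a ∈ s,
  ∀ (f : Lˣ) (f0 g : Kˣ), RedAt s τ a f f0 →
  TorsV E (f * (Units.map (algebraMap K L : K →* L) g)⁻¹) → TorsV s (f0 * g⁻¹)

/-- N03: tame symbols at a Gauss valuation and evaluation at a point. -/
def SpRed : Prop := ∀ (K L : Type) [Field K] [Field L] [Algebra K L] (τ : L), Coord K L τ →
  ∀ (s : ValuationSubring K) (E : ValuationSubring L), IsDiscV s → IsGauss s τ E → ∀ a ∈ s,
  ∀ (β : Sy L) (r : Lˣ → Kˣ),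
  (∀ x ∈ FreeAbelianGroup.support β, RedAt s τ a x.1 (r x.1) ∧ RedAt s τ a x.2 (r x.2)) →
  RedAt s τ a (sm E β) (sm s (FreeAbelianGroup.map (Prod.map r r) β))

/-- N04: finitely many points and leading coefficients suffice. -/
def SpChartP : Prop := ∀ (k K : Type) [Field k] [Infinite k] [Field K] [Algebra k K]
  (T : Finset K[X]), (0 : K[X]) ∉ T → ∃ (m : ℕ) (a : Fin m → k) (J : Fin m → K[X] → ℕ),
  ∀ V : ValuationSubring K, (∀ c : k, algebraMap k K c ∈ V) → ∃ i : Fin m, ∀ P ∈ T,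
    P.coeff (J i P) ≠ 0 ∧ (∀ l, P.coeff l / P.coeff (J i P) ∈ V) ∧
    P.eval (algebraMap k K (a i)) ≠ 0 ∧
    P.coeff (J i P) / P.eval (algebraMap k K (a i)) ∈ V

/-- N05: data indexed by a finite type. -/
def SpDatMk : Prop := ∀ (K ι : Type) [Field K] [Finite ι] (A : ι → Finset K) (β : ι → Sy K),
  (∀ V : ValuationSubring K, ∃ i, ∀ a ∈ A i, a ∈ V) →
  (∀ D : ValuationSubring K, IsDiscV D → ∀ i j, (∀ a ∈ A i, a ∈ D) → (∀ a ∈ A j, a ∈ D) →
    TorsV D (sm D (β i - β j))) →
  ∃ d : Dat K, ∀ V : ValuationSubring K, ∃ i, (∀ a ∈ A i, a ∈ V) ∧ d.val V = sm V (β i)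

/-- N06: the values at the Gauss valuations are given by data on `K`. -/
def SpDown : Prop := ∀ (p : ℕ) (k K L : Type) [Field k] [Field K] [Field L]
  [Algebra k K] [Algebra k L] [Algebra K L] [IsScalarTower k K L], Base p k → ∀ τ : L,
  Coord K L τ → ∀ d : Dat L, HDat (K := K) τ d →
  ∃ d' : Dat K, ∀ s : ValuationSubring K, IsDiscV s → ∀ g : Kˣ, IsG d τ s g →
    TorsV s (d'.val s * g⁻¹)

/-! ### Charts adapted to a divisor and to a unit on it -/

/-- N07: integral closures over purely transcendental extensions of perfect fields. -/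
def SpRICN : Prop := ∀ (k : Type) [Field k] [PerfectField k] (n : ℕ),
  RICk (FractionRing (MvPolynomial (Fin n) k))

/-- N08: the valuation ring `s` is a localisation of a finitely generated ring. -/
def SpRA1N : Prop := ∀ (k K : Type) [Field k] [Field K] [Algebra k K], RICk k →
  Fg2 k K → ∀ s : ValuationSubring K, IsDiscV s → (∀ c : k, algebraMap k K c ∈ s) →
  ∀ u : K, u ∈ s → (∀ P : k[X], P ≠ 0 → aeval u P ∉ s.nonunits) →
  ∃ A : Subalgebra k K, A.FG ∧ u ∈ A ∧ (∀ a ∈ A, a ∈ s) ∧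
    (∀ z ∈ s, ∃ a ∈ A, ∃ d ∈ A, d ∉ s.nonunits ∧ z * d = a) ∧
    ∀ a ∈ A, ∃ F : k[X][X], F.Monic ∧
      F.eval₂ ((aeval u : k[X] →ₐ[k] K) : k[X] →+* K) a ∈ s.nonunits

/-- N09: points of curves. -/
def SpRCurN : Prop := ∀ (k κ : Type) [Field k] [Field κ] [Algebra k κ], RICk k →
  ∀ D : Subalgebra k κ, D.FG → (∀ z : κ, ∃ a ∈ D, ∃ d ∈ D, d ≠ 0 ∧ z * d = a) →
  ∀ t ∈ D, Transcendental k t →
  (∀ a ∈ D, ∃ F : k[X][X], F.Monic ∧
    F.eval₂ ((aeval t : k[X] →ₐ[k] κ) : k[X] →+* κ) a = 0) →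
  ∃ (C : Subalgebra k κ) (b : ValuationSubring κ), C.FG ∧ D ≤ C ∧ IsDiscV b ∧
    (∀ c ∈ C, c ∈ b) ∧ t ∈ b.nonunits ∧
    ∀ z ∈ b, ∃ a ∈ C, ∃ d ∈ C, d ∉ b.nonunits ∧ z * d = a

/-- N10: the local ring of a point on the curve. -/
def SpRPreN : Prop := ∀ (k K : Type) [Field k] [Field K] [Algebra k K], RICk k →
  Fg2 k K → ∀ s : ValuationSubring K, IsDiscV s → (∀ c : k, algebraMap k K c ∈ s) →
  ∀ u : K, u ∈ s → (∀ P : k[X], P ≠ 0 → aeval u P ∉ s.nonunits) →
  ∃ (ϖ : K) (A : Subring K), PreR k s u ϖ A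

/-- N11: a transcendental residue is part of a family of independent residues. -/
def SpXch : Prop := ∀ (n : ℕ) (k K : Type) [Field k] [Field K] [Algebra k K]
  (s : ValuationSubring K), TrN (n + 1) k s → ∀ u : K, u ∈ s →
  (∀ P : k[X], P ≠ 0 → aeval u P ∉ s.nonunits) →
  ∃ z : Fin n → K, ∀ P : MvPolynomial (Fin n) k[X], P ≠ 0 →
    P.eval₂ ((aeval u : k[X] →ₐ[k] K) : k[X] →+* K) z ∈ s ∧
    P.eval₂ ((aeval u : k[X] →ₐ[k] K) : k[X] →+* K) z ∉ s.nonunits

/-- N12: reduction to transcendence degree two over a field of rational functions. -/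
def SpFg2N : Prop := ∀ (n : ℕ) (k K : Type) [Field k] [Field K] [Algebra k K],
  FgN (n + 2) k K → ∀ (s : ValuationSubring K) (u : K) (z : Fin n → K),
  (∀ P : MvPolynomial (Fin n) k[X], P ≠ 0 →
    P.eval₂ ((aeval u : k[X] →ₐ[k] K) : k[X] →+* K) z ∈ s ∧
    P.eval₂ ((aeval u : k[X] →ₐ[k] K) : k[X] →+* K) z ∉ s.nonunits) →
  ∃ φ : FractionRing (MvPolynomial (Fin n) k) →+* K,
    (∀ c : k, φ (algebraMap k _ c) = algebraMap k K c) ∧ (∀ a, φ a ∈ s) ∧
    (∀ P : (FractionRing (MvPolynomial (Fin n) k))[X], P ≠ 0 → P.eval₂ φ u ∉ s.nonunits) ∧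
    letI := φ.toAlgebra; Fg2 (FractionRing (MvPolynomial (Fin n) k)) K

/-- N13: charts adapted to a divisor and to a unit on it. -/
def SpRBN : Prop := ∀ (p n : ℕ) (k K : Type) [Field k] [Field K] [Algebra k K], Base p k →
  FgN (n + 2) k K → ∀ s : ValuationSubring K, IsDiscV s → TrN (n + 1) k s → ∀ u : Kˣ,
  UnitIn s u → ¬ TorsV s u → ∃ (R : Subring K) (f : R), Reg2 k R ∧ OnR R f s ∧ oD R s u ≠ 0

/-! ### Comparison of coordinates -/

/-- N14: comparison of the coordinates `τ` and `τ / c`. -/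
def SpCmpN : Prop := ∀ (p n : ℕ) (k K L : Type) [Field k] [Field K] [Field L]
  [Algebra k K] [Algebra k L] [Algebra K L] [IsScalarTower k K L], Base p k → FgN (n + 2) k K →
  ∀ τ : L, Coord K L τ → ∀ d : Dat L, HDat (K := K) τ d → ∀ s : ValuationSubring K, IsDiscV s →
  TrN (n + 1) k s → ∀ c : K, ordV s c = 1 → c ≠ 0 → ∀ g g' : Kˣ, IsG d τ s g →
  IsG d (τ / algebraMap K L c) s g' → TorsV s (g * g'⁻¹)

/-- N15: all affine coordinates, for fixed `K`. -/
def SpAffN : Prop := ∀ (p n : ℕ) (k K L : Type) [Field k] [Field K] [Field L]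
  [Algebra k K] [Algebra k L] [Algebra K L] [IsScalarTower k K L], Base p k → FgN (n + 2) k K →
  ∀ τ : L, Coord K L τ → ∀ d : Dat L, HDat (K := K) τ d → ∀ s : ValuationSubring K, IsDiscV s →
  TrN (n + 1) k s → (∀ E : ValuationSubring L, IsGauss s τ E → d.Triv E) → ∀ a c : K, c ≠ 0 →
  ∀ E : ValuationSubring L, IsGauss s ((τ - algebraMap K L a) / algebraMap K L c) E → d.Triv E

/-- N16: `FgN` and `TrN` under finite extensions. -/
def SpFgExtN : Prop := ∀ (n : ℕ) (k K K2 : Type) [Field k] [Field K] [Field K2] [Algebra k K]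
  [Algebra k K2] [Algebra K K2] [IsScalarTower k K K2] [FiniteDimensional K K2],
  (FgN n k K → FgN n k K2) ∧ ∀ s : ValuationSubring K2, TrN n k s →
    TrN n k (s.comap (algebraMap K K2))

/-- N17: the comparison property. -/
def SpCTN : Prop := ∀ (p n : ℕ) (k K L : Type) [Field k] [Field K] [Field L]
  [Algebra k K] [Algebra k L] [Algebra K L] [IsScalarTower k K L], Base p k → FgN (n + 2) k K →
  ∀ τ : L, Coord K L τ → ∀ d : Dat L, HDat (K := K) τ d →
  (∀ s : ValuationSubring K, IsDiscV s → TrN (n + 1) k s → ∀ E : ValuationSubring L,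
    IsGauss s τ E → d.Triv E) → CoordTrivN (n + 1) k (K := K) d τ

/-! ### All divisors of `K(t)` -/

/-- N18: the transcendence degree of the residue field of a nontrivial valuation ring. -/
def SpErelSN : Prop := ∀ (n : ℕ) (k K : Type) [Field k] [Field K] [Algebra k K]
  (s : ValuationSubring K), s ≠ ⊤ → TrN n k s → ∃ x : Fin (n + 1) → K, AlgebraicIndependent k x

/-- N19: the residue fields of `W` and of `W ∩ K`. -/
def SpEresN : Prop := ∀ (n : ℕ) (k K L : Type) [Field k] [Field K] [Field L] [Algebra k K]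
  [Algebra K L] [Algebra k L] [IsScalarTower k K L] (W : ValuationSubring L), TrN (n + 1) k W →
  ¬ TrN (n + 1) k (W.comap (algebraMap K L)) →
  (∀ z : Fin 2 → L, ∃ P : MvPolynomial (Fin 2) K,
    (∀ m, P.coeff m ∈ W.comap (algebraMap K L)) ∧
    (∃ m, P.coeff m ∉ (W.comap (algebraMap K L)).nonunits) ∧ MvPolynomial.aeval z P = 0) →
  TrN n k (W.comap (algebraMap K L)) ∧ ∃ z : L, IsGauss (W.comap (algebraMap K L)) z W

/-- N20: independent residues and finite extensions inside `Ω`. -/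
def SpEdiscN : Prop := ∀ (n : ℕ) (k K L Ω M K2 : Type) [Field k] [Field K] [Field L] [Field Ω]
  [Field M] [Field K2] [Algebra k K] [Algebra K L] [Algebra K Ω] [Algebra Ω M] [Algebra K K2]
  [Algebra K2 Ω] [IsScalarTower K K2 Ω] [Algebra k K2] [IsScalarTower k K K2] (φ : L →+* M),
  (∀ a : K, φ (algebraMap K L a) = algebraMap Ω M (algebraMap K Ω a)) →
  ∀ (W : ValuationSubring L) (V : ValuationSubring M), V.comap φ = W →
    TrN n k (W.comap (algebraMap K L)) →
    TrN n k ((V.comap (algebraMap Ω M)).comap (algebraMap K2 Ω))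

/-- N21: the data are trivial at all divisorial valuation rings of `K(t)`. -/
def SpAllDivN : Prop := ∀ (p n : ℕ) (k K L : Type) [Field k] [Field K] [Field L]
  [Algebra k K] [Algebra k L] [Algebra K L] [IsScalarTower k K L], Base p k → FgN (n + 1) k K →
  ∀ τ : L, Coord K L τ → ∀ d : Dat L, HDat (K := K) τ d →
  (∀ D : ValuationSubring L, IsDiscV D → (∀ a : K, algebraMap K L a ∈ D) → τ⁻¹ ∈ D.nonunits →
    d.Triv D) → CoordTrivN n k (K := K) d τ →
  ∀ W : ValuationSubring L, IsDiscV W → TrN (n + 1) k W → d.Triv W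

/-! ### The main theorem -/

/-- N22: the theorem for function fields of regular projective surfaces. -/
def SpThm1 : Prop := ∀ (p : ℕ) (k K : Type) [Field k] [Field K] [Algebra k K], Base p k →
  Surf k K → ThmK 1 k K

/-- N23: from `K` to `K(t)`. -/
def SpStep : Prop := ∀ (p n : ℕ) (k K L : Type) [Field k] [Field K] [Field L]
  [Algebra k K] [Algebra k L] [Algebra K L] [IsScalarTower k K L], Base p k → FgN (n + 2) k K →
  ∀ τ : L, Coord K L τ → ThmK (n + 1) k K → ThmK (n + 2) k L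

/-- N24: transcendence degree of `K(t)`. -/
def SpFgStep : Prop := ∀ (n : ℕ) (k K L : Type) [Field k] [Field K] [Field L]
  [Algebra k K] [Algebra k L] [Algebra K L] [IsScalarTower k K L], FgN n k K →
  ∀ τ : L, Coord K L τ → FgN (n + 1) k L

/-- N25: isomorphic fields. -/
def SpIso : Prop := ∀ (n : ℕ) (k K L : Type) [Field k] [Field K] [Field L] [Algebra k K]
  [Algebra k L], (K ≃ₐ[k] L) → ThmK n k K → ThmK n k L

/-- N26: one more variable. -/
def SpTowC : Prop := ∀ (m : ℕ) (k K : Type) [Field k] [Field K] [Algebra k K],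
  ∃ (φ : FractionRing (MvPolynomial (Fin m) K) →+* FractionRing (MvPolynomial (Fin (m + 1)) K))
    (τ : FractionRing (MvPolynomial (Fin (m + 1)) K)),
    (∀ c : k, φ (algebraMap k _ c) = algebraMap k _ c) ∧
    (letI := φ.toAlgebra;
      Coord (FractionRing (MvPolynomial (Fin m) K)) (FractionRing (MvPolynomial (Fin (m + 1)) K))
        τ)

/-- N27: fields of rational functions. -/
def SpTower : Prop := ∀ (p : ℕ) (k K : Type) [Field k] [Field K] [Algebra k K], Base p k →
  FgN 2 k K → ThmK 1 k K → ∀ m : ℕ, ThmK (m + 1) k (FractionRing (MvPolynomial (Fin m) K))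

end Pool.Agent.H19.UT
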