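import Pool.Agent.H19.UN.SpN

/-!
Project UN, row N17: the comparison property (helper38).
-/

set_option autoImplicit false
set_option maxHeartbeats 400000

open Polynomial Pool.Agent.K1

namespace Pool.Agent.H19.UT

/-- N17: the comparison property. -/
theorem sp_ctN (h3 : SpGauss) (hm : SpHMap) (ha : SpAffN) (hf : SpFgExt) (hf' : SpFgExtN)
    (hr : SpGaussRes) : SpCTN := by
  intro p n k K L _ _ _ _ _ _ _ hB hfg τ hτ d hd htr K2 L2 _ _ _ _ _ _ _ φ hφ hτ2 a c hc s hs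
    hs1 E hE
  let _ : Algebra k L2 := ((algebraMap K2 L2).comp (algebraMap k K2)).toAlgebra
  have _ : IsScalarTower k K2 L2 := IsScalarTower.of_algebraMap_eq (fun _ => rfl)
  have hH : HDat (K := K2) (φ τ) (d.map φ) := by
    have h := hm K L K2 L2 φ τ hφ d hd 0 1 one_ne_zero
    simpa only [map_zero, map_one, sub_zero, div_one] using h
  refine ha p n k K2 L2 hB ((hf' (n + 2) k K K2).1 hfg) (φ τ) hτ2 (d.map φ) hH s hs hs1 ?_ a c
    hc E hE
  intro E' hE'
  have hE'd : IsDiscV E' := ((h3 K2 L2 (φ τ) hτ2 s hs).2.2 E' hE').1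
  have hs0 : IsDiscV (s.comap (algebraMap K K2)) := ((hf k K K2).2 s hs).1
  have hG : IsGauss (s.comap (algebraMap K K2)) τ (E'.comap φ) :=
    hr K L K2 L2 φ τ hφ s E' hE'
  have hG1 : IsDiscV (E'.comap φ) := ((h3 K L τ hτ _ hs0).2.2 _ hG).1
  exact (Dat.triv_map φ d hE'd hG1).2 (htr _ hs0 ((hf' (n + 1) k K K2).2 s hs1) _ hG)

end Pool.Agent.H19.UT
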