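import Pool.Agent.H19.UN.SpN

/-!
Project UN, row N04: finitely many points and leading coefficients suffice.
-/

set_option autoImplicit false
set_option maxHeartbeats 400000

open Polynomial Pool.Agent.K1

namespace Pool.Agent.H19.UT

/-- The number of the points of `k` at which a polynomial, normalised by a largest coefficient, is
not a unit. -/
theorem n04_bad {k K : Type} [Field k] [Field K] [Algebra k K] (V : ValuationSubring K)
    (hk : ∀ c : k, algebraMap k K c ∈ V) (P : K[X]) (j : ℕ) (hj : P.coeff j ≠ 0)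
    (h : ∀ l, P.coeff l / P.coeff j ∈ V) (A : Finset k)
    (hA : ∀ a ∈ A, ¬ (P.eval (algebraMap k K a) ≠ 0 ∧
      P.coeff j / P.eval (algebraMap k K a) ∈ V)) : A.card ≤ P.natDegree := by
  classical
  set P' : K[X] := C (P.coeff j)⁻¹ * P with hP'
  have hco : ∀ l, P'.coeff l = P.coeff l / P.coeff j := by
    intro l
    rw [hP', coeff_C_mul, div_eq_mul_inv, mul_comm]
  obtain ⟨Q, hQ⟩ : ∃ Q : V[X], Q.map V.subtype = P' := by
    have : P' ∈ Polynomial.lifts V.subtype := by
      rw [Polynomial.lifts_iff_coeff_lifts]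
      intro l
      rw [hco l]
      exact ⟨⟨_, h l⟩, rfl⟩
    exact this
  have hinj : Function.Injective V.subtype := Subtype.val_injective
  have hQd : Q.natDegree = P.natDegree := by
    rw [← Polynomial.natDegree_map_eq_of_injective hinj Q, hQ, hP',
      Polynomial.natDegree_C_mul (inv_ne_zero hj)]
  have hQc : Q.coeff j = 1 := by
    apply hinj
    rw [map_one, ← Polynomial.coeff_map, hQ, hco j, div_self hj]
  set q : (IsLocalRing.ResidueField V)[X] := Q.map (IsLocalRing.residue V) with hq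
  have hq0 : q ≠ 0 := by
    intro h0
    have h1 : q.coeff j = 1 := by rw [hq, coeff_map, hQc, map_one]
    rw [h0, coeff_zero] at h1
    exact zero_ne_one h1
  let f : k →+* V :=
    { toFun := fun c => ⟨algebraMap k K c, hk c⟩
      map_one' := Subtype.ext (map_one _)
      map_mul' := fun x y => Subtype.ext (map_mul _ x y)
      map_zero' := Subtype.ext (map_zero _)
      map_add' := fun x y => Subtype.ext (map_add _ x y) }
  let g : k →+* IsLocalRing.ResidueField V := (IsLocalRing.residue V).comp f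
  have hg : Function.Injective g := g.injective
  have hsub : (A.image g).val ⊆ q.roots := by
    intro y hy
    obtain ⟨a, ha, rfl⟩ := Finset.mem_image.1 (Finset.mem_def.2 hy)
    rw [Polynomial.mem_roots hq0, Polynomial.IsRoot.def]
    have h1 : q.eval (g a) = IsLocalRing.residue V (Q.eval (f a)) := by
      rw [hq, Polynomial.eval_map]
      exact Polynomial.eval₂_at_apply (IsLocalRing.residue V) (f a)
    have h2 : ((Q.eval (f a) : V) : K) = (P.coeff j)⁻¹ * P.eval (algebraMap k K a) := by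
      have h3 : V.subtype (Q.eval (f a)) = (Q.map V.subtype).eval (V.subtype (f a)) := by
        rw [Polynomial.eval_map]
        exact (Polynomial.eval₂_at_apply V.subtype (f a)).symm
      have h4 : V.subtype (f a) = algebraMap k K a := rfl
      rw [hQ, h4, hP', eval_mul, eval_C] at h3
      exact h3
    rw [h1, IsLocalRing.residue_eq_zero_iff, IsLocalRing.mem_maximalIdeal, mem_nonunits_iff]
    intro hu
    apply hA a ha
    obtain ⟨u, hu⟩ := hu
    have h5 : ((u : V) : K) * ((u⁻¹ : Vˣ) : V) = 1 := by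
      exact congrArg (V.subtype) u.mul_inv
    rw [hu, h2] at h5
    have h6 : P.eval (algebraMap k K a) ≠ 0 := by
      intro h0
      rw [h0, mul_zero, zero_mul] at h5
      exact zero_ne_one h5
    refine ⟨h6, ?_⟩
    have h7 : P.coeff j / P.eval (algebraMap k K a) = (((u⁻¹ : Vˣ) : V) : K) := by
      rw [div_eq_iff h6]
      have : (((u⁻¹ : Vˣ) : V) : K) * P.eval (algebraMap k K a) =
          P.coeff j * ((P.coeff j)⁻¹ * P.eval (algebraMap k K a) * (((u⁻¹ : Vˣ) : V) : K)) := by
        field_simp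
      rw [this, h5, mul_one]
    rw [h7]
    exact ((u⁻¹ : Vˣ) : V).2
  have h8 := Polynomial.card_le_degree_of_subset_roots hsub
  rw [Finset.card_image_of_injective A hg] at h8
  exact h8.trans ((Polynomial.natDegree_map_le).trans hQd.le)

/-- A largest coefficient. -/
theorem n04_max {K : Type} [Field K] (V : ValuationSubring K) (P : K[X]) (hP : P ≠ 0) :
    ∃ j, j ≤ P.natDegree ∧ P.coeff j ≠ 0 ∧ ∀ l, P.coeff l / P.coeff j ∈ V := by
  obtain ⟨j, hj, hmax⟩ := Finset.exists_max_image P.support (fun l => V.valuation (P.coeff l))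
    (Polynomial.support_nonempty.2 hP)
  have hj0 : P.coeff j ≠ 0 := Polynomial.mem_support_iff.1 hj
  refine ⟨j, Polynomial.le_natDegree_of_ne_zero hj0, hj0, ?_⟩
  intro l
  by_cases hl : P.coeff l = 0
  · rw [hl, zero_div]
    exact V.zero_mem
  · rw [← ValuationSubring.valuation_le_one_iff, map_div₀]
    have h1 := hmax l (Polynomial.mem_support_iff.2 hl)
    have h2 : V.valuation (P.coeff j) ≠ 0 := (Valuation.ne_zero_iff _).2 hj0
    exact div_le_one_of_le₀ h1 zero_le

/-- Row N04. -/
theorem sp_chartP : SpChartP := by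
  intro k K _ _ _ _ T hT
  classical
  obtain ⟨A, hA⟩ := Infinite.exists_subset_card_eq k (∑ P ∈ T, P.natDegree + 1)
  let D : ℕ := T.sup Polynomial.natDegree
  let I : Type := A × (T → Fin (D + 1))
  let e : I ≃ Fin (Fintype.card I) := Fintype.equivFin I
  refine ⟨Fintype.card I, fun i => ((e.symm i).1 : k),
    fun i P => if h : P ∈ T then ((e.symm i).2 ⟨P, h⟩ : ℕ) else 0, ?_⟩
  intro V hV
  have hex : ∀ P : T, ∃ j : Fin (D + 1), P.1.coeff j ≠ 0 ∧ ∀ l, P.1.coeff l / P.1.coeff j ∈ V := by
    intro P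
    have hP : P.1 ≠ 0 := fun h0 => hT (h0 ▸ P.2)
    obtain ⟨j, h1, h2, h3⟩ := n04_max V P.1 hP
    have h4 : P.1.natDegree ≤ D := Finset.le_sup (f := Polynomial.natDegree) P.2
    exact ⟨⟨j, by omega⟩, h2, h3⟩
  choose J hJ0 hJV using hex
  obtain ⟨a, haA, ha⟩ : ∃ a ∈ A, ∀ P : T, P.1.eval (algebraMap k K a) ≠ 0 ∧
      P.1.coeff (J P) / P.1.eval (algebraMap k K a) ∈ V := by
    by_contra hcon
    push Not at hcon
    let bad : K[X] → Finset k := fun P => if h : P ∈ T then A.filter fun a =>
      ¬ (P.eval (algebraMap k K a) ≠ 0 ∧ P.coeff (J ⟨P, h⟩) / P.eval (algebraMap k K a) ∈ V) else ∅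
    have h1 : A ⊆ T.biUnion bad := by
      intro a ha
      obtain ⟨P, hP⟩ := hcon a ha
      rw [Finset.mem_biUnion]
      refine ⟨P.1, P.2, ?_⟩
      simp only [bad]
      rw [dif_pos P.2, Finset.mem_filter]
      refine ⟨ha, ?_⟩
      rintro ⟨h2, h3⟩
      exact hP h2 h3
    have h2 : A.card ≤ ∑ P ∈ T, (bad P).card :=
      (Finset.card_le_card h1).trans Finset.card_biUnion_le
    have h3 : ∀ P ∈ T, (bad P).card ≤ P.natDegree := by
      intro P hP
      simp only [bad]
      rw [dif_pos hP]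
      refine n04_bad V hV P _ (hJ0 ⟨P, hP⟩) (hJV ⟨P, hP⟩) _ ?_
      intro a ha
      exact (Finset.mem_filter.1 ha).2
    have h4 := h2.trans (Finset.sum_le_sum h3)
    omega
  refine ⟨e (⟨a, haA⟩, J), ?_⟩
  intro P hP
  have e1 : e.symm (e (⟨a, haA⟩, J)) = (⟨a, haA⟩, J) := e.symm_apply_apply _
  simp only [e1]
  rw [dif_pos hP]
  exact ⟨hJ0 ⟨P, hP⟩, hJV ⟨P, hP⟩, (ha ⟨P, hP⟩).1, (ha ⟨P, hP⟩).2⟩

end Pool.Agent.H19.UT
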