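import Pool.Agent.H19.UN.SpN

/-!
Project UN, row N05: data indexed by a finite type.
-/

set_option autoImplicit false
set_option maxHeartbeats 400000

open Polynomial Pool.Agent.K1

namespace Pool.Agent.H19.UT

/-- N05: data indexed by a finite type. -/
theorem sp_datMk : SpDatMk := by
  intro K ι _ _ A β hcov hcomp
  obtain ⟨n, ⟨e⟩⟩ := Finite.exists_equiv_fin ι
  let d : Dat K :=
    { m := n
      A := fun i => A (e.symm i)
      β := fun i => β (e.symm i)
      cover := fun V => by
        obtain ⟨i, hi⟩ := hcov V
        refine ⟨e i, ?_⟩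
        rw [Equiv.symm_apply_apply]
        exact hi
      compat := fun D hD i j hi hj => hcomp D hD (e.symm i) (e.symm j) hi hj }
  exact ⟨d, fun V => ⟨e.symm (d.idx V), d.idx_spec V, rfl⟩⟩

end Pool.Agent.H19.UT
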