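import Pool.Agent.H19.UN.SpN

/-!
Project UN, row N20: independent residues and finite extensions inside `Ω` (helper88).
-/

set_option autoImplicit false
set_option maxHeartbeats 400000

open Polynomial Pool.Agent.K1

namespace Pool.Agent.H19.UT

theorem e_discN : SpEdiscN := by
  intro n k K L Ω M K2 _ _ _ _ _ _ _ _ _ _ _ _ _ _ _ φ hφ W V hVW h
  have hcomap : ((V.comap (algebraMap Ω M)).comap (algebraMap K2 Ω)).comap (algebraMap K K2) =
      W.comap (algebraMap K L) := by
    ext x
    rw [ValuationSubring.mem_comap, ValuationSubring.mem_comap, ValuationSubring.mem_comap,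
      ValuationSubring.mem_comap, ← IsScalarTower.algebraMap_apply K K2 Ω, ← hφ, ← hVW,
      ValuationSubring.mem_comap]
  obtain ⟨z, hz⟩ := h
  refine ⟨algebraMap K K2 ∘ z, fun P hP => ?_⟩
  obtain ⟨h3, h4⟩ := hz P hP
  rw [← hcomap] at h3 h4
  have h5 : MvPolynomial.aeval (algebraMap K K2 ∘ z) P =
      algebraMap K K2 (MvPolynomial.aeval z P) :=
    MvPolynomial.aeval_algebraMap_apply K2 z P
  rw [h5]
  rw [comap_nonunits] at h4
  exact ⟨h3, h4⟩

end Pool.Agent.H19.UT
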