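import Pool.Agent.H19.UN.SpN
import Pool.Agent.H19.UT.Basic
import Pool.Agent.H19.UT.Gf

/-!
Project UN, row N06: the values at the Gauss valuations are given by data on `K`.
-/

set_option autoImplicit false
set_option maxHeartbeats 400000

open Polynomial Pool.Agent.K1

namespace Pool.Agent.H19.UT

section n06

variable {K L : Type} [Field K] [Field L] [Algebra K L]

theorem n06_inv {F : Type} [Field F] {E : ValuationSubring F} {u : F} (h : u ∈ E)
    (h' : u ∉ E.nonunits) : u⁻¹ ∈ E := by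
  have h1 := (E.valuation_le_one_iff u).2 h
  rw [E.mem_nonunits_iff, not_lt] at h'
  rw [← E.valuation_le_one_iff, map_inv₀, le_antisymm h1 h', inv_one]

theorem n06_alg {s : ValuationSubring K} {τ : L} {E : ValuationSubring L} (hG : IsGauss s τ E)
    (c : K) : algebraMap K L c ∈ E ↔ c ∈ s := by
  have key : ∀ b : K, b ∈ s → algebraMap K L b ∈ E ∧
      (algebraMap K L b ∈ E.nonunits → b ∈ s.nonunits) ∧
      (b ∈ s.nonunits → algebraMap K L b ∈ E.nonunits) := by
    intro b hb
    have h1 := hG (C b) (fun n => by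
      rw [coeff_C]
      split_ifs
      · exact hb
      · exact s.zero_mem)
    rw [aeval_C] at h1
    refine ⟨h1.1, fun h => ?_, fun h => h1.2.2 fun n => ?_⟩
    · have h2 := h1.2.1 h 0
      rwa [coeff_C_zero] at h2
    · rw [coeff_C]
      split_ifs
      · exact h
      · exact s.nonunits.zero_mem
  refine ⟨fun h => ?_, fun h => (key c h).1⟩
  by_contra hc
  have hc0 : c ≠ 0 := by
    rintro rfl
    exact hc s.zero_mem
  have h1 : c⁻¹ ∈ s := (s.mem_or_inv_mem c).resolve_left hc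
  have h2 : c⁻¹ ∈ s.nonunits := by
    rw [s.mem_nonunits_iff, map_inv₀]
    have h3 : 1 < s.valuation c := by
      rw [← not_le, s.valuation_le_one_iff]
      exact hc
    exact inv_lt_one_of_one_lt₀ h3
  have h3 := (key _ h1).2.2 h2
  rw [map_inv₀] at h3
  have h4 := nonunits_mul h h3
  rw [mul_inv_cancel₀ ((_root_.map_ne_zero _).2 hc0), E.mem_nonunits_iff, map_one] at h4
  exact lt_irrefl _ h4

/-- A polynomial is its coefficient `J`, the largest one, times a unit of the Gauss ring. -/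
theorem n06_unit {s : ValuationSubring K} {τ : L} {E : ValuationSubring L} (hG : IsGauss s τ E)
    (P : K[X]) (j : ℕ) (hj : P.coeff j ≠ 0) (h : ∀ l, P.coeff l / P.coeff j ∈ s) :
    ∃ u : L, aeval τ P = algebraMap K L (P.coeff j) * u ∧ u ∈ E ∧ u⁻¹ ∈ E ∧ u ≠ 0 := by
  have h1 := hG (C (P.coeff j)⁻¹ * P) (fun n => by
    rw [coeff_C_mul, mul_comm, ← div_eq_mul_inv]
    exact h n)
  have h2 : aeval τ (C (P.coeff j)⁻¹ * P) ∉ E.nonunits := by
    intro h3
    have h4 := h1.2.1 h3 j
    rw [coeff_C_mul, inv_mul_cancel₀ hj, s.mem_nonunits_iff, map_one] at h4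
    exact lt_irrefl _ h4
  refine ⟨aeval τ (C (P.coeff j)⁻¹ * P), ?_, h1.1, n06_inv h1.1 h2, fun h3 => ?_⟩
  · rw [map_mul, aeval_C, ← mul_assoc, ← map_mul, mul_inv_cancel₀ hj, map_one, one_mul]
  · rw [h3] at h2
    exact h2 E.nonunits.zero_mem

/-- The reduction of a quotient at a point. -/
theorem n06_red {s : ValuationSubring K} {τ : L} {a : K} {P Q : K[X]} (f : Lˣ)
    (hf : (f : L) * aeval τ Q = aeval τ P) (hP : P.eval a ≠ 0) (hQ : Q.eval a ≠ 0)
    (hPs : ∀ l, P.coeff l / P.eval a ∈ s) (hQs : ∀ l, Q.coeff l / Q.eval a ∈ s) (f0 : Kˣ)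
    (h0 : (f0 : K) = P.eval a / Q.eval a) : RedAt s τ a f f0 := by
  refine ⟨C (P.eval a)⁻¹ * P, C (Q.eval a)⁻¹ * Q, fun n => ?_, fun n => ?_, ?_, ?_, ?_⟩
  · rw [coeff_C_mul, mul_comm, ← div_eq_mul_inv]
    exact hPs n
  · rw [coeff_C_mul, mul_comm, ← div_eq_mul_inv]
    exact hQs n
  · rw [eval_mul, eval_C, inv_mul_cancel₀ hP]
  · rw [eval_mul, eval_C, inv_mul_cancel₀ hQ]
  · rw [map_mul, map_mul, aeval_C, aeval_C, h0, ← hf]
    have h1 : algebraMap K L (P.eval a) ≠ 0 := (_root_.map_ne_zero _).2 hP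
    have h2 : algebraMap K L (Q.eval a) ≠ 0 := (_root_.map_ne_zero _).2 hQ
    rw [map_div₀, map_inv₀, map_inv₀]
    field_simp

open Classical in
/-- The value of a quotient at a point, as a unit. -/
noncomputable def n06_r (num den : L → K[X]) (a : K) (f : Lˣ) : Kˣ :=
  if h : (num (f : L)).eval a / (den (f : L)).eval a ≠ 0 then Units.mk0 _ h else 1

omit [Algebra K L] in
theorem n06_r_val (num den : L → K[X]) (a : K) (f : Lˣ) (h1 : (num (f : L)).eval a ≠ 0)
    (h2 : (den (f : L)).eval a ≠ 0) :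
    ((n06_r num den a f : Kˣ) : K) = (num (f : L)).eval a / (den (f : L)).eval a := by
  unfold n06_r
  rw [dif_pos (div_ne_zero h1 h2), Units.val_mk0]

end n06

theorem sp_down (h3 : SpGauss) (h4 : SpGf) (hx : SpGaussEx) (he : SpEvalG) (hr : SpRed)
    (hc : SpChartP) (hm : SpDatMk) : SpDown := by
  classical
  intro p k K L _ _ _ _ _ _ _ hb τ hτ d hd
  have := hb.closed
  have : Infinite k := IsAlgClosed.instInfinite
  choose num den hden hnd using hτ.2
  have hden0 : ∀ f, den f ≠ 0 := by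
    intro f h
    exact hden f (by rw [h, map_zero])
  have hnum0 : ∀ f, f ≠ 0 → num f ≠ 0 := by
    intro f hf h
    have h1 := hnd f
    rw [h, map_zero] at h1
    exact (mul_ne_zero hf (hden f)) h1
  -- the elements
  obtain ⟨F, hFA, hFs, hF0⟩ : ∃ F : Fin d.m → Finset L,
      (∀ i, ∀ f ∈ d.A i, f ≠ 0 → f ∈ F i) ∧
      (∀ i, ∀ x ∈ FreeAbelianGroup.support (d.β i), (x.1 : L) ∈ F i ∧ (x.2 : L) ∈ F i) ∧
      ∀ i, ∀ f ∈ F i, f ≠ 0 := by
    refine ⟨fun i => (d.A i).erase 0 ∪
      ((FreeAbelianGroup.support (d.β i)).image (fun x => (x.1 : L)) ∪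
        (FreeAbelianGroup.support (d.β i)).image (fun x => (x.2 : L))), ?_, ?_, ?_⟩
    · intro i f hf hf0
      exact Finset.mem_union_left _ (Finset.mem_erase.2 ⟨hf0, hf⟩)
    · intro i x hx
      exact ⟨Finset.mem_union_right _ (Finset.mem_union_left _ (Finset.mem_image.2 ⟨x, hx, rfl⟩)),
        Finset.mem_union_right _ (Finset.mem_union_right _ (Finset.mem_image.2 ⟨x, hx, rfl⟩))⟩
    · intro i f hf
      rcases Finset.mem_union.1 hf with hf | hf
      · exact (Finset.mem_erase.1 hf).1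
      · rcases Finset.mem_union.1 hf with hf | hf
        · obtain ⟨x, _, rfl⟩ := Finset.mem_image.1 hf
          exact Units.ne_zero _
        · obtain ⟨x, _, rfl⟩ := Finset.mem_image.1 hf
          exact Units.ne_zero _
  obtain ⟨T, hTn, hTd, hT0⟩ : ∃ T : Fin d.m → Finset K[X],
      (∀ i, ∀ f ∈ F i, num f ∈ T i) ∧ (∀ i, ∀ f ∈ F i, den f ∈ T i) ∧ ∀ i, (0 : K[X]) ∉ T i := by
    refine ⟨fun i => (F i).image num ∪ (F i).image den, ?_, ?_, ?_⟩
    · intro i f hf
      exact Finset.mem_union_left _ (Finset.mem_image.2 ⟨f, hf, rfl⟩)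
    · intro i f hf
      exact Finset.mem_union_right _ (Finset.mem_image.2 ⟨f, hf, rfl⟩)
    · intro i h
      rcases Finset.mem_union.1 h with h | h
      · obtain ⟨f, hf, h⟩ := Finset.mem_image.1 h
        exact hnum0 f (hF0 i f hf) h
      · obtain ⟨f, hf, h⟩ := Finset.mem_image.1 h
        exact hden0 f h
  choose m a J hJ using fun i => hc k K (T i) (hT0 i)
  -- the index set and the charts
  let al : (Σ i : Fin d.m, Fin (m i)) → K := fun q => algebraMap k K (a q.1 q.2)
  let ι : Type := {q : Σ i : Fin d.m, Fin (m i) // ∀ P ∈ T q.1,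
    P.coeff (J q.1 q.2 P) ≠ 0 ∧ P.eval (al q) ≠ 0}
  let A' : ι → Finset K := fun q =>
    ((T q.1.1).biUnion fun P => (Finset.range (P.natDegree + 1)).image fun l =>
      P.coeff l / P.coeff (J q.1.1 q.1.2 P)) ∪
    ((T q.1.1).image (fun P => P.coeff (J q.1.1 q.1.2 P) / P.eval (al q.1)) ∪
    ((d.A q.1.1).erase 0).image (fun f => (num f).coeff (J q.1.1 q.1.2 (num f)) /
      (den f).coeff (J q.1.1 q.1.2 (den f))))
  have hA' : ∀ (q : ι) (s : ValuationSubring K), (∀ x ∈ A' q, x ∈ s) ↔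
      (∀ P ∈ T q.1.1, ∀ l, P.coeff l / P.coeff (J q.1.1 q.1.2 P) ∈ s) ∧
      (∀ P ∈ T q.1.1, P.coeff (J q.1.1 q.1.2 P) / P.eval (al q.1) ∈ s) ∧
      (∀ f ∈ d.A q.1.1, f ≠ 0 → (num f).coeff (J q.1.1 q.1.2 (num f)) /
        (den f).coeff (J q.1.1 q.1.2 (den f)) ∈ s) := by
    intro q s
    constructor
    · intro h
      refine ⟨fun P hP l => ?_, fun P hP => ?_, fun f hf hf0 => ?_⟩
      · by_cases hl : l < P.natDegree + 1
        · exact h _ (Finset.mem_union_left _ (Finset.mem_biUnion.2 ⟨P, hP,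
            Finset.mem_image.2 ⟨l, Finset.mem_range.2 hl, rfl⟩⟩))
        · rw [coeff_eq_zero_of_natDegree_lt (by omega), zero_div]
          exact s.zero_mem
      · exact h _ (Finset.mem_union_right _ (Finset.mem_union_left _
          (Finset.mem_image.2 ⟨P, hP, rfl⟩)))
      · exact h _ (Finset.mem_union_right _ (Finset.mem_union_right _
          (Finset.mem_image.2 ⟨f, Finset.mem_erase.2 ⟨hf0, hf⟩, rfl⟩)))
    · rintro ⟨h1, h2, h5⟩ x hx
      rcases Finset.mem_union.1 hx with hx | hx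
      · obtain ⟨P, hP, hx⟩ := Finset.mem_biUnion.1 hx
        obtain ⟨l, _, rfl⟩ := Finset.mem_image.1 hx
        exact h1 P hP l
      · rcases Finset.mem_union.1 hx with hx | hx
        · obtain ⟨P, hP, rfl⟩ := Finset.mem_image.1 hx
          exact h2 P hP
        · obtain ⟨f, hf, rfl⟩ := Finset.mem_image.1 hx
          exact h5 f (Finset.mem_erase.1 hf).2 (Finset.mem_erase.1 hf).1
  let β' : ι → Sy K := fun q =>
    FreeAbelianGroup.map (Prod.map (n06_r num den (al q.1)) (n06_r num den (al q.1))) (d.β q.1.1)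
  -- the charts cover
  have hcover : ∀ V : ValuationSubring K, ∃ q, ∀ x ∈ A' q, x ∈ V := by
    intro V
    obtain ⟨E, hE⟩ := hx K L τ hτ V
    obtain ⟨i, hi⟩ := d.cover E
    obtain ⟨j, hj⟩ := hJ i V (c04_const hb V)
    refine ⟨⟨⟨i, j⟩, fun P hP => ⟨(hj P hP).1, (hj P hP).2.2.1⟩⟩, ?_⟩
    rw [hA']
    refine ⟨fun P hP => (hj P hP).2.1, fun P hP => (hj P hP).2.2.2, fun f hf hf0 => ?_⟩
    have hfF := hFA i f hf hf0
    have hn := hj _ (hTn i f hfF)
    have hdn := hj _ (hTd i f hfF)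
    obtain ⟨u, hu, hu1, hu2, hu3⟩ := n06_unit hE _ _ hn.1 hn.2.1
    obtain ⟨w, hw, hw1, hw2, hw3⟩ := n06_unit hE _ _ hdn.1 hdn.2.1
    rw [← n06_alg hE]
    have h5 := hnd f
    rw [hu, hw] at h5
    have h6 : algebraMap K L ((num f).coeff (J i j (num f)) / (den f).coeff (J i j (den f))) =
        f * w * u⁻¹ := by
      have h7 : algebraMap K L ((den f).coeff (J i j (den f))) ≠ 0 :=
        (_root_.map_ne_zero _).2 hdn.1
      rw [map_div₀, div_eq_iff h7, ← mul_left_inj' hu3]
      rw [← h5]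
      field_simp
    rw [h6]
    exact E.mul_mem _ _ (E.mul_mem _ _ (hi f hf) hw1) hu2
  -- the key fact
  have key : ∀ (q : ι) (s : ValuationSubring K), IsDiscV s → (∀ x ∈ A' q, x ∈ s) →
      ∀ g : Kˣ, IsG d τ s g → TorsV s (sm s (β' q) * g⁻¹) := by
    rintro ⟨⟨i, j⟩, hq⟩ s hs hq' g hg
    obtain ⟨h1, h2, h5⟩ := (hA' _ s).1 hq'
    obtain ⟨E, hE⟩ := (h3 K L τ hτ s hs).1
    have hED := ((h3 K L τ hτ s hs).2.2 E hE).1
    have hAE : ∀ f ∈ d.A i, f ∈ E := by
      intro f hf
      by_cases hf0 : f = 0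
      · rw [hf0]
        exact E.zero_mem
      have hfF := hFA i f hf hf0
      have hn := hq _ (hTn i f hfF)
      have hdn := hq _ (hTd i f hfF)
      obtain ⟨u, hu, hu1, hu2, hu3⟩ := n06_unit hE _ _ hn.1 (h1 _ (hTn i f hfF))
      obtain ⟨w, hw, hw1, hw2, hw3⟩ := n06_unit hE _ _ hdn.1 (h1 _ (hTd i f hfF))
      have h6 := hnd f
      rw [hu, hw] at h6
      have h7 : f = algebraMap K L ((num f).coeff (J i j (num f)) /
          (den f).coeff (J i j (den f))) * (u * w⁻¹) := by
        have h8 : algebraMap K L ((den f).coeff (J i j (den f))) ≠ 0 :=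
          (_root_.map_ne_zero _).2 hdn.1
        rw [map_div₀]
        have h9 : f * (algebraMap K L ((den f).coeff (J i j (den f))) * w) =
            algebraMap K L ((num f).coeff (J i j (num f))) * u := h6
        field_simp
        rw [← h9]
        ring
      rw [h7]
      exact E.mul_mem _ _ ((n06_alg hE _).2 (h5 f hf hf0)) (E.mul_mem _ _ hu1 hw2)
    have h6 := val_tors hED d i hAE
    have h7 := hg.2 E hE
    have h8 : TorsV E (sm E (d.β i) * (Units.map (algebraMap K L : K →* L) g)⁻¹) := by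
      have h9 := torsV_mul (torsV_inv h6) h7
      have h10 : (d.val E * (sm E (d.β i))⁻¹)⁻¹ *
          (d.val E * (Units.map (algebraMap K L : K →* L) g)⁻¹) =
          sm E (d.β i) * (Units.map (algebraMap K L : K →* L) g)⁻¹ := by
        rw [mul_inv_rev, inv_inv]
        group
      rwa [h10] at h9
    have has : algebraMap k K (a i j) ∈ s := c04_const hb s _
    have hred : ∀ f : Lˣ, (f : L) ∈ F i →
        RedAt s τ (algebraMap k K (a i j)) f (n06_r num den (algebraMap k K (a i j)) f) := by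
      intro f hf
      have hn := hq _ (hTn i f hf)
      have hdn := hq _ (hTd i f hf)
      refine n06_red f (hnd f) hn.2 hdn.2 (fun l => ?_) (fun l => ?_) _
        (n06_r_val num den _ f hn.2 hdn.2)
      · have h9 := s.mul_mem _ _ (h1 _ (hTn i f hf) l) (h2 _ (hTn i f hf))
        have hn1 := hn.1
        have h10 : (num (f : L)).coeff l / (num (f : L)).eval (algebraMap k K (a i j)) =
            (num (f : L)).coeff l / (num (f : L)).coeff (J i j (num (f : L))) *
            ((num (f : L)).coeff (J i j (num (f : L))) /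
              (num (f : L)).eval (algebraMap k K (a i j))) := by
          rw [div_mul_div_cancel₀ hn1]
        rw [h10]
        exact h9
      · have h9 := s.mul_mem _ _ (h1 _ (hTd i f hf) l) (h2 _ (hTd i f hf))
        have hn1 := hdn.1
        have h10 : (den (f : L)).coeff l / (den (f : L)).eval (algebraMap k K (a i j)) =
            (den (f : L)).coeff l / (den (f : L)).coeff (J i j (den (f : L))) *
            ((den (f : L)).coeff (J i j (den (f : L))) /
              (den (f : L)).eval (algebraMap k K (a i j))) := by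
          rw [div_mul_div_cancel₀ hn1]
        rw [h10]
        exact h9
    have h9 := hr K L τ hτ s E hs hE _ has (d.β i) (n06_r num den (algebraMap k K (a i j)))
      (fun x hx => ⟨hred x.1 (hFs i x hx).1, hred x.2 (hFs i x hx).2⟩)
    exact he K L τ hτ s E hE _ has _ _ g h9 h8
  have hcompat : ∀ D : ValuationSubring K, IsDiscV D → ∀ q q', (∀ x ∈ A' q, x ∈ D) →
      (∀ x ∈ A' q', x ∈ D) → TorsV D (sm D (β' q - β' q')) := by
    intro D hD q q' h1 h2
    obtain ⟨⟨g, hg⟩, -⟩ := h4 p k K L hb τ hτ d hd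
    have h5 := key q D hD h1 (g D) (hg D hD)
    have h6 := key q' D hD h2 (g D) (hg D hD)
    have h7 := torsV_mul h5 (torsV_inv h6)
    rw [sm_sub]
    have h8 : sm D (β' q) * (g D)⁻¹ * (sm D (β' q') * (g D)⁻¹)⁻¹ =
        sm D (β' q) * (sm D (β' q'))⁻¹ := by
      rw [mul_inv_rev, inv_inv]
      group
    rwa [h8] at h7
  obtain ⟨d', hd'⟩ := hm K ι A' β' hcover hcompat
  refine ⟨d', fun s hs g hg => ?_⟩
  obtain ⟨q, hq, hq'⟩ := hd' s
  rw [hq']
  exact key q s hs hq g hg

end Pool.Agent.H19.UT
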