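import Pool.Agent.H19.UN.SpN

/-!
Project UN, row N02: evaluation of a torsion element at a point (helper74).
-/

set_option autoImplicit false
set_option maxHeartbeats 400000

open Polynomial Pool.Agent.K1

namespace Pool.Agent.H19.UT

section n02

theorem n02_lift {K : Type} [Field K] (s : ValuationSubring K) {P : K[X]}
    (h : ∀ n, P.coeff n ∈ s) : ∃ P' : s[X], P'.map s.subtype = P := by
  have : P ∈ Polynomial.lifts s.subtype := by
    rw [Polynomial.lifts_iff_coeff_lifts]
    intro n
    exact ⟨⟨_, h n⟩, rfl⟩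
  exact (Polynomial.mem_lifts _).1 this

theorem n02_eval_mem {K : Type} [Field K] (s : ValuationSubring K) {P : s[X]}
    (h : ∀ n, (P.map s.subtype).coeff n ∈ s.nonunits) (a : s) :
    P.eval a ∈ IsLocalRing.maximalIdeal s := by
  rw [Polynomial.eval_eq_sum_range]
  refine Ideal.sum_mem _ fun i _ => Ideal.mul_mem_right _ _ ?_
  have := h i
  rw [Polynomial.coeff_map] at this
  exact ValuationSubring.coe_mem_nonunits_iff.1 this

theorem n02_eval_sub {K : Type} [Field K] (s : ValuationSubring K) (P : s[X]) (a : s) :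
    ((P.eval a : s) : K) = (P.map s.subtype).eval (a : K) := by
  have h := Polynomial.eval_map_apply (f := s.subtype) (p := P) (x := a)
  exact h.symm

theorem sp_evalG : SpEvalG := by
  rintro K L _ _ _ τ hτ s E hE a ha f f0 g ⟨U, W, hU, hW, hUa, hWa, hf⟩ ⟨n, hn, ht⟩
  obtain ⟨U', rfl⟩ := n02_lift s hU
  obtain ⟨W', rfl⟩ := n02_lift s hW
  have hUa' : U'.eval (⟨a, ha⟩ : s) = 1 := by
    apply Subtype.ext
    rw [n02_eval_sub]
    exact hUa
  have hWa' : W'.eval (⟨a, ha⟩ : s) = 1 := by
    apply Subtype.ext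
    rw [n02_eval_sub]
    exact hWa
  have key : ∀ P' : s[X], P'.eval (⟨a, ha⟩ : s) = 1 →
      E.valuation (aeval τ (P'.map s.subtype)) = 1 := by
    intro P' hP'
    have hc : ∀ n, (P'.map s.subtype).coeff n ∈ s := by
      intro n
      rw [Polynomial.coeff_map]
      exact (P'.coeff n).2
    obtain ⟨h1, h2⟩ := hE (P'.map s.subtype) hc
    have h3 : aeval τ (P'.map s.subtype) ∉ E.nonunits := by
      intro h4
      have h5 := n02_eval_mem s (h2.1 h4) ⟨a, ha⟩
      rw [hP'] at h5
      exact (Ideal.ne_top_iff_one _).1 (IsLocalRing.maximalIdeal.isMaximal s).ne_top h5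
    rw [ValuationSubring.mem_nonunits_iff, not_lt] at h3
    exact le_antisymm ((E.valuation_le_one_iff _).2 h1) h3
  have hvU := key U' hUa'
  have hvW := key W' hWa'
  set Ut : L := aeval τ (U'.map s.subtype) with hUt
  set Wt : L := aeval τ (W'.map s.subtype) with hWt
  set c : K := ((f0 * g⁻¹ : Kˣ) : K) with hc
  have hcL : algebraMap K L c = algebraMap K L (f0 : K) * (algebraMap K L (g : K))⁻¹ := by
    rw [hc, Units.val_mul, map_mul, Units.val_inv_eq_inv_val, map_inv₀]
  set q : L := ((f * (Units.map (algebraMap K L : K →* L) g)⁻¹ : Lˣ) : L) with hq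
  have hqf : q = (f : L) * (algebraMap K L (g : K))⁻¹ := by
    rw [hq, Units.val_mul, Units.val_inv_eq_inv_val]
    rfl
  have hqW : q * Wt = algebraMap K L c * Ut := by
    rw [hqf, hcL]
    linear_combination (algebraMap K L (g : K))⁻¹ * hf
  have hvq : E.valuation q = 1 := by
    have h1 : E.valuation (q ^ n) = 1 := by
      have h2 : q ^ n = 1 + (q ^ n - 1) := by ring
      rw [h2]
      exact Valuation.map_one_add_of_lt _ ((ValuationSubring.mem_nonunits_iff _).1 ht)
    rw [map_pow] at h1
    exact (pow_eq_one_iff.1 h1).resolve_right hn.ne'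
  have hvc : E.valuation (algebraMap K L c) = 1 := by
    have h1 := congrArg E.valuation hqW
    rw [map_mul, map_mul, hvq, hvW, hvU, one_mul, mul_one] at h1
    exact h1.symm
  have hcs : c ∈ s := by
    by_contra hcs
    have h1 : c⁻¹ ∈ s.nonunits := (ValuationSubring.inv_mem_nonunits_iff _).2 (Or.inr hcs)
    have h2 := (hE (C c⁻¹) (fun n => by
      rw [Polynomial.coeff_C]
      split_ifs
      · exact ValuationSubring.nonunits_subset h1
      · exact s.zero_mem)).2.2 (fun n => by
      rw [Polynomial.coeff_C]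
      split_ifs
      · exact h1
      · exact s.nonunits.zero_mem)
    rw [Polynomial.aeval_C, ValuationSubring.mem_nonunits_iff, map_inv₀, map_inv₀, hvc,
      inv_one] at h2
    exact lt_irrefl _ h2
  set P : s[X] := C ((⟨c, hcs⟩ : s) ^ n) * U' ^ n - W' ^ n with hP
  have hPτ : aeval τ (P.map s.subtype) = Wt ^ n * (q ^ n - 1) := by
    have h1 : aeval τ (P.map s.subtype) = algebraMap K L c ^ n * Ut ^ n - Wt ^ n := by
      rw [hP, Polynomial.map_sub, Polynomial.map_mul, Polynomial.map_pow, Polynomial.map_pow,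
        Polynomial.map_C, map_sub, map_mul, map_pow, map_pow, map_pow, Polynomial.aeval_C,
        map_pow, map_pow]
      rfl
    rw [h1, mul_sub, mul_one, ← mul_pow, ← mul_pow, mul_comm Wt q, hqW]
  have hPn : aeval τ (P.map s.subtype) ∈ E.nonunits := by
    rw [hPτ, ValuationSubring.mem_nonunits_iff, map_mul, map_pow, hvW, one_pow, one_mul]
    exact (ValuationSubring.mem_nonunits_iff _).1 ht
  have h3 := (hE (P.map s.subtype) (fun m => by
    rw [Polynomial.coeff_map]
    exact (P.coeff m).2)).2.1 hPn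
  have h4 := n02_eval_mem s h3 ⟨a, ha⟩
  rw [hP, Polynomial.eval_sub, Polynomial.eval_mul, Polynomial.eval_pow, Polynomial.eval_pow,
    Polynomial.eval_C, hUa', hWa', one_pow, mul_one] at h4
  exact ⟨n, hn, ValuationSubring.coe_mem_nonunits_iff.2 h4⟩

end n02

end Pool.Agent.H19.UT
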