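import Pool.Agent.H19.UN.SpN

/-!
Project UN, row N12: reduction to transcendence degree two over a field of rational functions.
-/

set_option autoImplicit false
set_option maxHeartbeats 400000

open Polynomial Pool.Agent.K1

namespace Pool.Agent.H19.UT

section aux

variable {n : ℕ} {k K : Type} [Field k] [Field K] [Algebra k K]

theorem n12_left (u : K) (z : Fin n → K) (W : MvPolynomial (Option (Fin n)) k) :
    (MvPolynomial.optionEquivLeft k (Fin n) W).eval₂
      (MvPolynomial.aeval z : MvPolynomial (Fin n) k →ₐ[k] K).toRingHom u =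
      MvPolynomial.aeval (fun o : Option (Fin n) => o.elim u z) W := by
  induction W using MvPolynomial.induction_on with
  | C a => simp
  | add p q hp hq => rw [map_add, map_add, Polynomial.eval₂_add, hp, hq]
  | mul_X p o hp =>
    rw [map_mul, map_mul, Polynomial.eval₂_mul, hp]
    cases o <;> simp

theorem n12_right (u : K) (z : Fin n → K) (W : MvPolynomial (Option (Fin n)) k) :
    (MvPolynomial.optionEquivRight k (Fin n) W).eval₂
      ((aeval u : k[X] →ₐ[k] K) : k[X] →+* K) z =
      MvPolynomial.aeval (fun o : Option (Fin n) => o.elim u z) W := by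
  induction W using MvPolynomial.induction_on with
  | C a => simp
  | add p q hp hq => rw [map_add, map_add, MvPolynomial.eval₂_add, hp, hq]
  | mul_X p o hp =>
    rw [map_mul, map_mul, MvPolynomial.eval₂_mul, hp]
    cases o <;> simp

theorem n12_sum {m : ℕ} (w : Fin m → K) (z : Fin n → K)
    (W : MvPolynomial (Fin m ⊕ Fin n) k) :
    (MvPolynomial.sumAlgEquiv k (Fin m) (Fin n) W).eval₂
      (MvPolynomial.aeval z : MvPolynomial (Fin n) k →ₐ[k] K).toRingHom w =
      MvPolynomial.aeval (Sum.elim w z) W := by
  induction W using MvPolynomial.induction_on with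
  | C a => simp
  | add p q hp hq => rw [map_add, map_add, MvPolynomial.eval₂_add, hp, hq]
  | mul_X p o hp =>
    rw [map_mul, map_mul, MvPolynomial.eval₂_mul, hp]
    cases o <;> simp

end aux

theorem sp_fg2N : SpFg2N := by
  intro n k K _ _ _ hFg s u z hz
  set ψ : MvPolynomial (Fin n) k →+* K :=
    (MvPolynomial.aeval z : MvPolynomial (Fin n) k →ₐ[k] K).toRingHom with hψ
  -- the values of all polynomials in `u` and `z` are units
  have hW : ∀ W : MvPolynomial (Option (Fin n)) k, W ≠ 0 →
      s.valuation (MvPolynomial.aeval (fun o : Option (Fin n) => o.elim u z) W) = 1 := by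
    intro W hW0
    have h1 := hz (MvPolynomial.optionEquivRight k (Fin n) W)
      (fun h => hW0 ((map_eq_zero_iff _ (MvPolynomial.optionEquivRight k (Fin n)).injective).1 h))
    rw [n12_right] at h1
    refine le_antisymm ((s.valuation_le_one_iff _).2 h1.1) ?_
    exact not_lt.1 fun h => h1.2 (s.mem_nonunits_iff.2 h)
  have hQ : ∀ Q : (MvPolynomial (Fin n) k)[X], Q ≠ 0 → s.valuation (Q.eval₂ ψ u) = 1 := by
    intro Q hQ0
    obtain ⟨W, rfl⟩ := (MvPolynomial.optionEquivLeft k (Fin n)).surjective Q
    rw [hψ, n12_left]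
    refine hW W fun h => hQ0 ?_
    rw [h, map_zero]
  have hA : ∀ a : MvPolynomial (Fin n) k, a ≠ 0 → s.valuation (ψ a) = 1 := by
    intro a ha
    have := hQ (Polynomial.C a) (by simpa using ha)
    rwa [Polynomial.eval₂_C] at this
  have hinj : Function.Injective ψ := by
    rw [injective_iff_map_eq_zero]
    intro a h
    by_contra ha
    have := hA a ha
    rw [h, map_zero] at this
    exact zero_ne_one this
  set φ : FractionRing (MvPolynomial (Fin n) k) →+* K := IsFractionRing.lift hinj with hφ
  have hφA : ∀ a, φ (algebraMap (MvPolynomial (Fin n) k) _ a) = ψ a := fun a =>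
    IsFractionRing.lift_algebraMap hinj a
  have hφk : ∀ c : k, φ (algebraMap k _ c) = algebraMap k K c := by
    intro c
    rw [IsScalarTower.algebraMap_apply k (MvPolynomial (Fin n) k), hφA]
    exact (MvPolynomial.aeval z : MvPolynomial (Fin n) k →ₐ[k] K).commutes c
  refine ⟨φ, hφk, ?_, ?_, ?_⟩
  · intro a
    obtain ⟨x, y, hy, rfl⟩ := IsFractionRing.div_surjective (A := MvPolynomial (Fin n) k) a
    have hy0 : y ≠ 0 := nonZeroDivisors.ne_zero hy
    rw [map_div₀, hφA, hφA, ← s.valuation_le_one_iff, map_div₀, hA y hy0, div_one]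
    by_cases hx : x = 0
    · rw [hx, map_zero, map_zero]; exact zero_le_one
    · exact (hA x hx).le
  · intro P hP hmem
    obtain ⟨b, hb, hb'⟩ := IsLocalization.integerNormalization_spec
      (nonZeroDivisors (MvPolynomial (Fin n) k)) P
    have hb0 : b ≠ 0 := nonZeroDivisors.ne_zero hb
    set Q := IsLocalization.integerNormalization (nonZeroDivisors (MvPolynomial (Fin n) k)) P
      with hQdef
    have hval : Q.eval₂ ψ u = ψ b * P.eval₂ φ u := by
      have h1 : (Q.map (algebraMap (MvPolynomial (Fin n) k)
          (FractionRing (MvPolynomial (Fin n) k)))).eval₂ φ u = Q.eval₂ ψ u := by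
        rw [Polynomial.eval₂_map]
        congr 1
        ext a
        · simp [hφA]
        · simp [hφA]
      rw [← h1, hb', algebra_compatible_smul (FractionRing (MvPolynomial (Fin n) k)) b P,
        Polynomial.smul_eq_C_mul, Polynomial.eval₂_mul, Polynomial.eval₂_C, hφA]
    have hQ0 : Q ≠ 0 := by
      intro h
      rw [h, Polynomial.map_zero] at hb'
      have h2 := hb'.symm
      rw [algebra_compatible_smul (FractionRing (MvPolynomial (Fin n) k)) b P,
        smul_eq_zero] at h2
      rcases h2 with h2 | h2
      · exact hb0 ((map_eq_zero_iff _ (IsFractionRing.injective _ _)).1 h2)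
      · exact hP h2
    have h3 := hQ Q hQ0
    rw [hval, map_mul, hA b hb0, one_mul] at h3
    have h4 := s.mem_nonunits_iff.1 hmem
    rw [h3] at h4
    exact lt_irrefl _ h4
  · letI := φ.toAlgebra
    show Fg2 (FractionRing (MvPolynomial (Fin n) k)) K
    have hmap : ∀ a : FractionRing (MvPolynomial (Fin n) k), algebraMap _ K a = φ a :=
      fun _ => rfl
    refine ⟨?_, ?_⟩
    · obtain ⟨S, hS⟩ := hFg.fg
      refine ⟨S, fun E hE hSE => hS E (fun c => ?_) hSE⟩
      rw [← hφk c, ← hmap]
      exact hE _
    · intro w
      have hcard : n + 2 + 1 = 3 + n := by ring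
      set e : Fin (n + 2 + 1) ≃ Fin 3 ⊕ Fin n :=
        (finCongr hcard).trans finSumFinEquiv.symm with he
      obtain ⟨P, hP0, hP⟩ := hFg.dim (fun i => Sum.elim w z (e i))
      set P' := MvPolynomial.rename e P with hP'
      have hP'0 : P' ≠ 0 := fun h =>
        hP0 ((MvPolynomial.rename_injective e e.injective) (by rw [map_zero]; exact h))
      set P'' := MvPolynomial.sumAlgEquiv k (Fin 3) (Fin n) P' with hP''
      have hP''0 : P'' ≠ 0 := fun h =>
        hP'0 ((map_eq_zero_iff _ (MvPolynomial.sumAlgEquiv k (Fin 3) (Fin n)).injective).1 h)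
      refine ⟨MvPolynomial.map (algebraMap (MvPolynomial (Fin n) k) _) P'', fun h => ?_, ?_⟩
      · refine hP''0 (MvPolynomial.map_injective _
          (IsFractionRing.injective (MvPolynomial (Fin n) k)
            (FractionRing (MvPolynomial (Fin n) k))) ?_)
        rw [h, map_zero]
      · rw [MvPolynomial.aeval_def, MvPolynomial.eval₂_map]
        have h1 : (algebraMap (FractionRing (MvPolynomial (Fin n) k)) K).comp
            (algebraMap (MvPolynomial (Fin n) k) (FractionRing (MvPolynomial (Fin n) k))) = ψ :=
          RingHom.ext fun a => hφA a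
        rw [h1, hP'', hψ, n12_sum, hP', MvPolynomial.aeval_rename]
        exact hP

end Pool.Agent.H19.UT
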