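import Pool.Agent.H19.UN.SpN
import Pool.Agent.H19.UT.FgExt

/-!
Project UN, row N16: `FgN` and `TrN` under finite extensions (helper7).
-/

set_option autoImplicit false
set_option maxHeartbeats 400000

open Polynomial Pool.Agent.K1

namespace Pool.Agent.H19.UT

section n16

theorem n16_dim (n : ℕ) (k K K2 : Type) [Field k] [Field K] [Field K2] [Algebra k K]
    [Algebra k K2] [Algebra K K2] [IsScalarTower k K K2] [FiniteDimensional K K2]
    (h : ∀ z : Fin (n + 1) → K, ∃ P : MvPolynomial (Fin (n + 1)) k,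
      P ≠ 0 ∧ MvPolynomial.aeval z P = 0)
    (z : Fin (n + 1) → K2) :
    ∃ P : MvPolynomial (Fin (n + 1)) k, P ≠ 0 ∧ MvPolynomial.aeval z P = 0 := by
  by_contra hcon
  push Not at hcon
  have hz : AlgebraicIndependent k z := by
    rw [algebraicIndependent_iff]
    intro P hP
    by_contra hne
    exact hcon P hne hP
  have h1 := hz.cardinalMk_le_trdeg
  have h2 := trdeg_add_eq k K (A := K2)
  have h3 : Algebra.trdeg K K2 = 0 := trdeg_eq_zero
  rw [h3, add_zero] at h2
  obtain ⟨s, hs⟩ := exists_isTranscendenceBasis k K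
  rw [← h2, ← hs.cardinalMk_eq_trdeg, Cardinal.le_def] at h1
  obtain ⟨f⟩ := h1
  have h4 := hs.1.comp f f.injective
  obtain ⟨P, hP, hP'⟩ := h (fun i => ((f i : s) : K))
  rw [algebraicIndependent_iff] at h4
  exact hP (h4 P hP')

/-- independent elements go down along algebraic extensions of fields. -/
theorem n16_alg {k F F' : Type} [Field k] [Field F] [Field F'] (i : k →+* F) (j : F →+* F')
    (h2 : ∀ w : F', ∃ P : F[X], P ≠ 0 ∧ P.eval₂ j w = 0) (n : ℕ) (w : Fin n → F')
    (hw : ∀ P : MvPolynomial (Fin n) k, P ≠ 0 → P.eval₂ (j.comp i) w ≠ 0) :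
    ∃ y : Fin n → F, ∀ P : MvPolynomial (Fin n) k, P ≠ 0 → P.eval₂ i y ≠ 0 := by
  let : Algebra k F := i.toAlgebra
  let : Algebra F F' := j.toAlgebra
  let : Algebra k F' := (j.comp i).toAlgebra
  have : IsScalarTower k F F' := IsScalarTower.of_algebraMap_eq (fun _ => rfl)
  have : Algebra.IsAlgebraic F F' := ⟨fun y => h2 y⟩
  have hz : AlgebraicIndependent k w := by
    rw [algebraicIndependent_iff]
    intro P hP
    by_contra hne
    exact hw P hne hP
  have h1 := hz.cardinalMk_le_trdeg
  have h3 := trdeg_add_eq k F (A := F')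
  have h4 : Algebra.trdeg F F' = 0 := trdeg_eq_zero
  rw [h4, add_zero] at h3
  obtain ⟨s, hs⟩ := exists_isTranscendenceBasis k F
  rw [← h3, ← hs.cardinalMk_eq_trdeg, Cardinal.le_def] at h1
  obtain ⟨f⟩ := h1
  have h5 := hs.1.comp f f.injective
  rw [algebraicIndependent_iff] at h5
  exact ⟨fun i => ((f i : s) : F), fun P hP h => hP (h5 P h)⟩

/-- the value of a polynomial with coefficients in a field contained in `s`. -/
theorem n16_val {k K : Type} [Field k] [Field K] (f : k →+* K) (s : ValuationSubring K)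
    (ι : k →+* s) (hι : s.subtype.comp ι = f) {n : ℕ} (y : Fin n → s)
    (P : MvPolynomial (Fin n) k) :
    ((P.eval₂ ι y : s) : K) = P.eval₂ f (fun i => (y i : K)) := by
  have h1 : ((P.eval₂ ι y : s) : K) = s.subtype (P.eval₂ ι y) := rfl
  rw [h1, MvPolynomial.eval₂_comp_left s.subtype ι y P, hι]
  rfl

theorem n16_tr (n : ℕ) (k K K2 : Type) [Field k] [Field K] [Field K2] [Algebra k K]
    [Algebra k K2] [Algebra K K2] [IsScalarTower k K K2] [FiniteDimensional K K2]
    (s : ValuationSubring K2) (h : TrN n k s) : TrN n k (s.comap (algebraMap K K2)) := by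
  obtain ⟨z, hz⟩ := h
  set s0 := s.comap (algebraMap K K2) with hs0
  have hk : ∀ c : k, algebraMap k K c ∈ s0 := by
    intro c
    by_cases hc : c = 0
    · rw [hc, map_zero]; exact s0.zero_mem
    · have h1 := (hz (MvPolynomial.C c) (fun h => hc (MvPolynomial.C_eq_zero.1 h))).1
      rw [MvPolynomial.aeval_C] at h1
      rw [hs0, ValuationSubring.mem_comap, ← IsScalarTower.algebraMap_apply]
      exact h1
  let ι : k →+* s0 := (algebraMap k K).codRestrict s0 hk
  have hι : s0.subtype.comp ι = algebraMap k K := rfl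
  have hzs : ∀ i, z i ∈ s := by
    intro i
    have h1 := (hz (MvPolynomial.X i) (MvPolynomial.X_ne_zero i)).1
    rwa [MvPolynomial.aeval_X] at h1
  have h6 : s.subtype.comp ((d04_inc (algebraMap K K2) s).comp ι) = algebraMap k K2 := by
    rw [IsScalarTower.algebraMap_eq k K K2]
    rfl
  have h3 : (IsLocalRing.ResidueField.map (d04_inc (algebraMap K K2) s)).comp
      ((IsLocalRing.residue s0).comp ι) =
      (IsLocalRing.residue s).comp ((d04_inc (algebraMap K K2) s).comp ι) := by
    rw [← RingHom.comp_assoc, IsLocalRing.ResidueField.map_comp_residue, RingHom.comp_assoc]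
  obtain ⟨y, hy⟩ := n16_alg ((IsLocalRing.residue s0).comp ι)
    (IsLocalRing.ResidueField.map (d04_inc (algebraMap K K2) s)) (d04_resalg (K := K) s) n
    (fun i => IsLocalRing.residue s ⟨z i, hzs i⟩) (by
      intro P hP
      have h7 : P.eval₂ ((IsLocalRing.residue s).comp ((d04_inc (algebraMap K K2) s).comp ι))
          (fun i => IsLocalRing.residue s ⟨z i, hzs i⟩) =
          IsLocalRing.residue s (P.eval₂ ((d04_inc (algebraMap K K2) s).comp ι)
            (fun i => (⟨z i, hzs i⟩ : s))) := by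
        rw [MvPolynomial.eval₂_comp_left]
        rfl
      rw [h3, h7, Ne, d04_res, n16_val (algebraMap k K2) s _ h6]
      exact (hz P hP).2)
  choose x hx using fun i => IsLocalRing.residue_surjective (y i)
  refine ⟨fun i => (x i : K), fun P hP => ?_⟩
  have h8 : MvPolynomial.aeval (fun i => (x i : K)) P = ((P.eval₂ ι x : s0) : K) := by
    rw [n16_val (algebraMap k K) s0 ι hι]
    rfl
  rw [h8]
  refine ⟨(P.eval₂ ι x).2, fun hcon => hy P hP ?_⟩
  rw [← d04_res, MvPolynomial.eval₂_comp_left] at hcon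
  rw [← hcon]
  congr 1
  funext i
  exact (hx i).symm

end n16

theorem sp_fgextN : SpFgExtN := by
  intro n k K K2 _ _ _ _ _ _ _ _
  exact ⟨fun h => ⟨d04_fg k K K2 h.fg, n16_dim n k K K2 h.dim⟩, n16_tr n k K K2⟩

end Pool.Agent.H19.UT
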