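import Pool.Agent.H19.UN.SpN

/-!
Project UN, row N24: transcendence degree of `K(t)`.
-/

set_option autoImplicit false
set_option maxHeartbeats 400000

open Polynomial Pool.Agent.K1 Cardinal

namespace Pool.Agent.H19.UT

/-- Bound for the transcendence degree from the dependence of all families. -/
theorem n24_trdeg_le (n : ℕ) (k K : Type) [Field k] [Field K] [Algebra k K]
    (h : ∀ z : Fin (n + 1) → K, ∃ P : MvPolynomial (Fin (n + 1)) k,
      P ≠ 0 ∧ MvPolynomial.aeval z P = 0) : Algebra.trdeg k K ≤ (n : Cardinal) := by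
  obtain ⟨s, hs⟩ := exists_isTranscendenceBasis k K
  rw [← hs.cardinalMk_eq_trdeg]
  by_contra hlt
  have h1 : ((n + 1 : ℕ) : Cardinal) ≤ #s := by
    rw [not_le] at hlt
    have h2 := Order.succ_le_of_lt hlt
    rw [Cardinal.succ_natCast] at h2
    exact_mod_cast h2
  have h2 : Cardinal.lift.{0} #(Fin (n + 1)) ≤ Cardinal.lift.{0} #s := by
    simpa using h1
  obtain ⟨e⟩ := Cardinal.lift_mk_le'.mp h2
  obtain ⟨P, hP, h0⟩ := h (fun i => ((e i : s) : K))
  have hi : AlgebraicIndependent k (fun i => ((e i : s) : K)) :=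
    hs.1.comp e e.injective
  exact hP ((injective_iff_map_eq_zero _).mp hi P h0)

theorem n24_dep_of_trdeg (n : ℕ) (k K : Type) [Field k] [Field K] [Algebra k K]
    (h : Algebra.trdeg k K ≤ (n : Cardinal)) :
    ∀ z : Fin (n + 1) → K, ∃ P : MvPolynomial (Fin (n + 1)) k,
      P ≠ 0 ∧ MvPolynomial.aeval z P = 0 := by
  intro z
  by_contra hc
  push Not at hc
  have hi : AlgebraicIndependent k z := by
    refine (injective_iff_map_eq_zero _).mpr ?_
    intro P hP
    by_contra hne
    exact hc P hne hP
  have h1 := hi.lift_cardinalMk_le_trdeg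
  have h2 : ((n + 1 : ℕ) : Cardinal) ≤ (n : Cardinal) := by
    refine le_trans ?_ h
    simpa using h1
  have h3 : n + 1 ≤ n := by exact_mod_cast h2
  omega

/-- UN-N24 -/
theorem sp_fgStep : SpFgStep := by
  classical
  intro n k K L _ _ _ _ _ _ _ hF τ hτ
  refine ⟨?_, ?_⟩
  · obtain ⟨S, hS⟩ := hF.fg
    refine ⟨insert τ (S.image (algebraMap K L)), ?_⟩
    intro E hE hSE
    have h1 : E.comap (algebraMap K L) = ⊤ := by
      apply hS
      · intro c
        rw [Subfield.mem_comap, ← IsScalarTower.algebraMap_apply]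
        exact hE c
      · intro a ha
        rw [Subfield.mem_comap]
        exact hSE _ (Finset.mem_insert_of_mem (Finset.mem_image_of_mem _ ha))
    have h2 : ∀ a : K, algebraMap K L a ∈ E := by
      intro a
      have : a ∈ E.comap (algebraMap K L) := by rw [h1]; trivial
      exact this
    have h3 : ∀ P : K[X], aeval τ P ∈ E := by
      intro P
      rw [aeval_eq_sum_range]
      refine E.sum_mem ?_
      intro i _
      rw [Algebra.smul_def]
      exact E.mul_mem (h2 _) (E.pow_mem (hSE _ (Finset.mem_insert_self _ _)) _)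
    rw [eq_top_iff]
    intro f _
    obtain ⟨P, Q, hQ, hf⟩ := hτ.2 f
    have h4 : f = aeval τ P * (aeval τ Q)⁻¹ := by
      field_simp
      exact hf
    rw [h4]
    exact E.mul_mem (h3 P) (E.inv_mem (h3 Q))
  · apply n24_dep_of_trdeg
    have h1 := n24_trdeg_le n k K hF.dim
    have halg : Algebra.IsAlgebraic (Algebra.adjoin K ({τ} : Set L)) L := by
      refine ⟨?_⟩
      intro f
      obtain ⟨P, Q, hQ, hf⟩ := hτ.2 f
      have hmem : ∀ P : K[X], aeval τ P ∈ Algebra.adjoin K ({τ} : Set L) := by
        intro P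
        rw [Algebra.adjoin_singleton_eq_range_aeval]
        exact ⟨P, rfl⟩
      refine ⟨Polynomial.C (⟨aeval τ Q, hmem Q⟩ : Algebra.adjoin K ({τ} : Set L)) * Polynomial.X
        - Polynomial.C ⟨aeval τ P, hmem P⟩, ?_, ?_⟩
      · intro h0
        have h5 := congrArg (fun q => q.coeff 1) h0
        simp [Polynomial.coeff_C] at h5
        exact hQ (congrArg Subtype.val h5)
      · rw [map_sub, map_mul, Polynomial.aeval_C, Polynomial.aeval_C, Polynomial.aeval_X]
        change aeval τ Q * f - aeval τ P = 0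
        rw [mul_comm, hf, sub_self]
    have h2 : Algebra.trdeg K L ≤ 1 := by
      have h6 := Algebra.IsAlgebraic.trdeg_le_cardinalMk K ({τ} : Set L)
      simpa using h6
    have h3 := trdeg_add_eq k K (A := L)
    rw [← h3]
    push_cast
    exact add_le_add h1 h2

end Pool.Agent.H19.UT
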