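import Pool.Agent.H19.UN.SpN

/-!
Project UN, row N01: Gauss valuation rings over arbitrary valuation rings exist.
-/

set_option autoImplicit false
set_option maxHeartbeats 400000

open Polynomial Pool.Agent.K1

namespace Pool.Agent.H19.UT

/-- N01 -/
theorem sp_gaussEx : SpGaussEx := by
  intro K L _ _ _ τ hτ V
  -- the evaluation homomorphism
  have hev : ∀ P : V[X], evR V.toSubring τ P = aeval τ (P.map V.subtype) := by
    intro P
    rw [evR, coe_eval₂RingHom, aeval_def, eval₂_map]
    rfl
  have hinj : Function.Injective (evR V.toSubring τ) := by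
    intro P Q h
    have h1 : aeval τ (P.map V.subtype) = aeval τ (Q.map V.subtype) := by
      rw [← hev, ← hev]
      exact h
    have h2 := (transcendental_iff_injective.1 hτ.1) h1
    exact map_injective _ (Subtype.val_injective) h2
  -- the prime ideal
  let r : V[X] →+* (IsLocalRing.ResidueField V)[X] := mapRingHom (IsLocalRing.residue V)
  let p : Ideal V[X] := RingHom.ker r
  have hpp : p.IsPrime := RingHom.ker_isPrime r
  have hmem : ∀ P : V[X], P ∈ p ↔ ∀ n, P.coeff n ∈ IsLocalRing.maximalIdeal V := by
    intro P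
    rw [RingHom.mem_ker, Polynomial.ext_iff]
    refine forall_congr' fun n => ?_
    rw [coe_mapRingHom, coeff_map, coeff_zero]
    exact IsLocalRing.residue_eq_zero_iff _
  have hu : ∀ y : p.primeCompl, IsUnit (evR V.toSubring τ y) := by
    intro y
    refine IsUnit.mk0 _ ?_
    intro h0
    apply y.2
    have : (y : V[X]) = 0 := hinj (by rw [h0, map_zero])
    rw [this]
    exact p.zero_mem
  let φ : Localization.AtPrime p →+* L := IsLocalization.lift (M := p.primeCompl) hu
  have hφ : ∀ P : V[X], φ (algebraMap _ _ P) = evR V.toSubring τ P := fun P =>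
    IsLocalization.lift_eq (M := p.primeCompl) hu P
  obtain ⟨E, hE, hl⟩ := IsLocalRing.exists_factor_valuationRing (R := Localization.AtPrime p) φ
  refine ⟨E, ?_⟩
  intro P hP
  -- the lift of `P`
  obtain ⟨P', rfl⟩ : ∃ P' : V[X], P'.map V.subtype = P := by
    have h1 : P ∈ Polynomial.lifts V.subtype := by
      rw [Polynomial.lifts_iff_coeff_lifts]
      intro n
      exact ⟨⟨P.coeff n, hP n⟩, rfl⟩
    obtain ⟨P', hP'⟩ := h1
    exact ⟨P', hP'⟩
  have h2 : φ (algebraMap _ _ P') = aeval τ (P'.map V.subtype) := by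
    rw [hφ, ← hev]
  have h3 : aeval τ (P'.map V.subtype) ∈ E := by
    rw [← h2]
    exact hE _
  refine ⟨h3, ?_⟩
  have h4 : IsUnit (⟨aeval τ (P'.map V.subtype), h3⟩ : E) ↔ P' ∉ p := by
    have h5 : (φ.codRestrict E.toSubring hE) (algebraMap _ _ P') =
        (⟨aeval τ (P'.map V.subtype), h3⟩ : E) := Subtype.ext h2
    rw [← h5]
    constructor
    · intro h
      have h6 : IsUnit (algebraMap V[X] (Localization.AtPrime p) P') := hl.map_nonunit _ h
      rw [IsLocalization.AtPrime.isUnit_to_map_iff (Localization.AtPrime p) p] at h6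
      exact h6
    · intro h
      have h6 : IsUnit (algebraMap V[X] (Localization.AtPrime p) P') := by
        rw [IsLocalization.AtPrime.isUnit_to_map_iff (Localization.AtPrime p) p]
        exact h
      exact h6.map _
  have h7 : aeval τ (P'.map V.subtype) ∈ E.nonunits ↔
      (⟨aeval τ (P'.map V.subtype), h3⟩ : E) ∈ nonunits E :=
    ValuationSubring.coe_mem_nonunits_iff (a := (⟨aeval τ (P'.map V.subtype), h3⟩ : E))
  rw [h7, mem_nonunits_iff, h4, not_not, hmem]
  refine forall_congr' fun n => ?_
  rw [coeff_map]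
  exact (ValuationSubring.coe_mem_nonunits_iff (a := P'.coeff n)).symm

end Pool.Agent.H19.UT
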