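import Pool.Agent.H19.UN.SpN
import Pool.Agent.H19.UT.Ops

/-!
Project UN, row N25: isomorphic fields (helper25).
-/

set_option autoImplicit false
set_option maxHeartbeats 400000

open Polynomial Pool.Agent.K1

namespace Pool.Agent.H19.UT

theorem n25_map_map {K L : Type} [Field K] [Field L] (φ : K →+* L) (ψ : L →+* K)
    (h : ∀ x, ψ (φ x) = x) (β : Sy K) : Sy.map ψ (Sy.map φ β) = β := by
  have hu : ∀ f : Kˣ, Units.map (ψ : L →* K) (Units.map (φ : K →* L) f) = f := by
    intro f
    ext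
    exact h f
  induction β using FreeAbelianGroup.induction_on with
  | zero => rw [map_zero, map_zero]
  | of p =>
    obtain ⟨f, g⟩ := p
    rw [Sy.map_of, Sy.map_of, hu, hu]
  | neg p hp => rw [map_neg, map_neg, hp]
  | add x y hx hy => rw [map_add, map_add, hx, hy]

theorem n25_disc {K L : Type} [Field K] [Field L] (φ : K →+* L) (ψ : L →+* K)
    (h : ∀ x, φ (ψ x) = x) {s : ValuationSubring L} (hs : IsDiscV s) : IsDiscV (s.comap φ) := by
  rcases ram φ hs with h1 | ⟨h1, -⟩
  · exfalso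
    obtain ⟨π, hπ, h2⟩ := hs
    have h3 := (tord_unif_mem hπ).2
    have hs : IsDiscV s := ⟨π, hπ, h2⟩
    apply h3
    have h4 : ψ π ≠ 0 := (map_ne_zero ψ).2 hπ.1
    have h5 := h1 (Units.mk0 _ h4)
    rw [Units.val_mk0, h] at h5
    rw [mem_iff_ordV hs (inv_ne_zero hπ.1), ordV_inv hs hπ.1, h5, neg_zero]
  · exact h1

/-- **Row N25.** -/
theorem sp_iso : SpIso := by
  intro n k K L _ _ _ _ _ e hK d
  have h1 : ∀ x, (e : K →+* L) ((e.symm : L →+* K) x) = x := fun x => e.apply_symm_apply x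
  have h2 : ∀ x, (e.symm : L →+* K) ((e : K →+* L) x) = x := fun x => e.symm_apply_apply x
  obtain ⟨N, β, hN, hβ⟩ := hK (d.map (e.symm : L →+* K))
  refine ⟨N, Sy.map (e : K →+* L) β, hN, fun s hs hz => ?_⟩
  have hs' : IsDiscV (s.comap (e : K →+* L)) := n25_disc _ _ h1 hs
  have hz' : TrN n k (s.comap (e : K →+* L)) := by
    obtain ⟨z, hz⟩ := hz
    refine ⟨fun i => e.symm (z i), fun P hP => ?_⟩
    have h3 : (e : K →+* L) (MvPolynomial.aeval (fun i => e.symm (z i)) P)
        = MvPolynomial.aeval z P := by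
      change e (MvPolynomial.aeval (fun i => e.symm (z i)) P) = _
      rw [← AlgEquiv.coe_toAlgHom e]
      rw [← AlgHom.comp_apply, MvPolynomial.comp_aeval]
      simp
    rw [ValuationSubring.mem_comap, comap_nonunits, h3]
    exact hz P hP
  have hcc : (s.comap (e : K →+* L)).comap (e.symm : L →+* K) = s := by
    ext x
    rw [ValuationSubring.mem_comap, ValuationSubring.mem_comap, h1]
  have h3 := torsV_inv (hβ _ hs' hz')
  have h4 : ((d.map (e.symm : L →+* K)).tw N β).Triv (s.comap (e : K →+* L)) := by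
    change TorsV _ (((d.map (e.symm : L →+* K)).tw N β).val _)
    rw [Dat.val_tw]
    rwa [mul_inv_rev, inv_inv] at h3
  have h5 : ((d.tw N (Sy.map (e : K →+* L) β)).map (e.symm : L →+* K)).Triv
      (s.comap (e : K →+* L)) := by
    rw [triv_iff hs' _ (((d.map (e.symm : L →+* K)).tw N β).idx (s.comap (e : K →+* L)))
      (((d.map (e.symm : L →+* K)).tw N β).idx_spec _)] at h4
    refine (triv_iff hs' ((d.tw N (Sy.map (e : K →+* L) β)).map (e.symm : L →+* K))
      (((d.map (e.symm : L →+* K)).tw N β).idx (s.comap (e : K →+* L)))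
      (((d.map (e.symm : L →+* K)).tw N β).idx_spec _)).2 ?_
    have h6 : ((d.tw N (Sy.map (e : K →+* L) β)).map (e.symm : L →+* K)).β
        (((d.map (e.symm : L →+* K)).tw N β).idx (s.comap (e : K →+* L)))
        = ((d.map (e.symm : L →+* K)).tw N β).β
        (((d.map (e.symm : L →+* K)).tw N β).idx (s.comap (e : K →+* L))) := by
      change Sy.map (e.symm : L →+* K) (N • d.β _ - Sy.map (e : K →+* L) β)
        = N • Sy.map (e.symm : L →+* K) (d.β _) - β
      rw [map_sub, map_nsmul, n25_map_map _ _ h2]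
    rw [h6]
    exact h4
  have h7 : IsDiscV ((s.comap (e : K →+* L)).comap (e.symm : L →+* K)) := by rwa [hcc]
  have h8 := (Dat.triv_map (e.symm : L →+* K) (d.tw N (Sy.map (e : K →+* L) β)) hs' h7).1 h5
  rw [hcc] at h8
  have h9 := torsV_inv h8
  rw [Dat.val_tw, mul_inv_rev, inv_inv] at h9
  exact h9

end Pool.Agent.H19.UT
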