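import Pool.Agent.H19.UN.SpN

/-!
Project UN, row N13: charts adapted to a divisor and to a unit on it (helper26).
-/

set_option autoImplicit false
set_option maxHeartbeats 400000

open Polynomial Pool.Agent.K1

namespace Pool.Agent.H19.UT

/-- Row N13. -/
theorem sp_rbN (h1 : SpRTr) (hr : SpRICN) (hp : SpRPreN) (hx : SpXch) (hf : SpFg2N)
    (h14 : SpRReg) (h15 : SpRFin) : SpRBN := by
  intro p n k K _ _ _ hb hfg s hs htN u hu ht
  have := hb.closed
  obtain ⟨-, htr⟩ := h1 p k K hb s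
  obtain ⟨z, hz⟩ := hx n k K s htN (u : K) hu.1 (fun P hP => (htr u hu ht P hP).2)
  obtain ⟨φ, hφk, hφs, hφu, hφf⟩ := hf n k K hfg s (u : K) z hz
  let : Algebra (FractionRing (MvPolynomial (Fin n) k)) K := φ.toAlgebra
  have hmap : ∀ a : FractionRing (MvPolynomial (Fin n) k),
      algebraMap (FractionRing (MvPolynomial (Fin n) k)) K a = φ a := fun _ => rfl
  obtain ⟨ϖ, A, hA⟩ := hp (FractionRing (MvPolynomial (Fin n) k)) K (hr k n) hφf s hs
    (fun c => by rw [hmap]; exact hφs c) (u : K) hu.1 (fun P hP => by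
      have h2 := hφu P hP
      rw [aeval_def]
      exact h2)
  obtain ⟨R, hR⟩ := h14 _ K s hs _ _ _ hA
  obtain ⟨hreg, f, hon, hod⟩ := h15 _ K s hs u hu R hR
  refine ⟨R, f, ⟨fun c => ?_, hreg.frac, hreg.reg, hreg.dim⟩, hon, hod⟩
  have h3 := hreg.k_mem (algebraMap k _ c)
  rw [hmap, hφk] at h3
  exact h3

end Pool.Agent.H19.UT
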