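import Pool.Agent.H19.UN.SpN

/-!
Project UN, row N09: points of curves, over a field with finitely generated integral closures.
-/

set_option autoImplicit false
set_option maxHeartbeats 400000

open Polynomial Pool.Agent.K1

namespace Pool.Agent.H19.UT

theorem sp_rcurN (h5 : SpRDvr) : SpRCurN := by
  intro k κ _ _ _ h4 D hDfg hDfr t ht htr hint
  obtain ⟨C, hCfg, hC⟩ := h4 κ D hDfg hDfr
  have hDC : D ≤ C := by
    intro a ha
    rw [hC]
    have h1 : IsIntegral D (algebraMap D κ ⟨a, ha⟩) := isIntegral_algebraMap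
    exact h1
  -- the algebra structures over `k[X]`
  let a1 : Algebra k[X] κ := ((aeval t : k[X] →ₐ[k] κ) : k[X] →+* κ).toAlgebra
  let a2 : Algebra k[X] D := ((aeval (⟨t, ht⟩ : D) : k[X] →ₐ[k] D) : k[X] →+* D).toAlgebra
  let a3 : Algebra k[X] C := ((aeval (⟨t, hDC ht⟩ : C) : k[X] →ₐ[k] C) : k[X] →+* C).toAlgebra
  have e1 : ∀ P : k[X], algebraMap k[X] κ P = aeval t P := fun P => rfl
  have e2 : ∀ P : k[X], ((algebraMap k[X] D P : D) : κ) = aeval t P := by
    intro P
    change ((aeval (⟨t, ht⟩ : D) P : D) : κ) = aeval t P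
    have h1 := aeval_algHom_apply D.val (⟨t, ht⟩ : D) P
    exact h1.symm
  have e3 : ∀ P : k[X], ((algebraMap k[X] C P : C) : κ) = aeval t P := by
    intro P
    change ((aeval (⟨t, hDC ht⟩ : C) P : C) : κ) = aeval t P
    have h1 := aeval_algHom_apply C.val (⟨t, hDC ht⟩ : C) P
    exact h1.symm
  have t1 : IsScalarTower k[X] D κ := IsScalarTower.of_algebraMap_eq fun P => (e2 P).symm
  have t2 : IsScalarTower k[X] C κ := IsScalarTower.of_algebraMap_eq fun P => (e3 P).symm
  have i1 : Algebra.IsIntegral k[X] D := by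
    refine ⟨fun a => ?_⟩
    have h1 : IsIntegral k[X] (algebraMap D κ a) := by
      obtain ⟨F, hF, h2⟩ := hint a a.2
      exact ⟨F, hF, h2⟩
    exact (isIntegral_algebraMap_iff Subtype.val_injective).1 h1
  have i2 : Algebra.IsIntegral k[X] C := by
    refine ⟨fun a => ?_⟩
    have h1 : IsIntegral k[X] (algebraMap C κ a) := isIntegral_trans (A := D) _ ((hC a).1 a.2)
    exact (isIntegral_algebraMap_iff Subtype.val_injective).1 h1
  have hinj : Function.Injective (algebraMap k[X] C) := by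
    rw [injective_iff_map_eq_zero]
    intro P hP
    have h1 := e3 P
    rw [hP] at h1
    by_contra h2
    exact htr ⟨P, h2, h1.symm⟩
  have hX : (Ideal.span {(X : k[X])}).IsPrime :=
    (Ideal.span_singleton_prime X_ne_zero).2 prime_X
  obtain ⟨Q, hQ, hQX⟩ := Ideal.exists_ideal_over_prime_of_isIntegral_of_isDomain (S := C)
    (Ideal.span {(X : k[X])}) (by
      rw [(RingHom.injective_iff_ker_eq_bot _).1 hinj]
      exact bot_le)
  have htQ : (⟨t, hDC ht⟩ : C) ∈ Q := by
    have h1 : (X : k[X]) ∈ Q.comap (algebraMap k[X] C) := by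
      rw [hQX]
      exact Ideal.mem_span_singleton_self X
    have h2 : algebraMap k[X] C X = (⟨t, hDC ht⟩ : C) := Subtype.ext (by rw [e3, aeval_X])
    rw [Ideal.mem_comap, h2] at h1
    exact h1
  have ht0 : t ≠ 0 := by
    rintro rfl
    exact htr isAlgebraic_zero
  have hCS : IsNoetherianRing C.toSubring := by
    have : Algebra.FiniteType k C := C.fg_iff_finiteType.1 hCfg
    exact Algebra.FiniteType.isNoetherianRing k C
  have hCint : ∀ z : κ, IsIntegral C.toSubring z → z ∈ C.toSubring := by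
    intro z hz
    have h1 : IsIntegral C z := hz
    have h2 : IsIntegral k[X] z := isIntegral_trans (A := C) _ h1
    have h3 : IsIntegral D z := h2.tower_top
    exact (hC z).2 h3
  obtain ⟨b, hb, hCb, hbQ, hfr⟩ := h5 κ C.toSubring hCS hCint (fun z => by
    obtain ⟨a, ha, d, hd, hd0, hz⟩ := hDfr z
    exact ⟨a, hDC ha, d, hDC hd, hd0, hz⟩) Q hQ (by
      intro h
      rw [h] at htQ
      exact ht0 (congrArg Subtype.val ((Ideal.mem_bot).1 htQ))) (by
      intro Q' hQ' hne hle
      have : Q'.IsPrime := hQ'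
      -- a nonzero element
      obtain ⟨x, hx, hx0⟩ := Submodule.exists_mem_ne_zero_of_ne_bot hne
      have h1 : Ideal.comap (algebraMap k[X] C) Q' ≠ ⊥ :=
        Ideal.comap_ne_bot_of_integral_mem hx0 hx (Algebra.IsIntegral.isIntegral x)
      have h2 : (Ideal.comap (algebraMap k[X] C) Q').IsPrime := Ideal.comap_isPrime _ _
      have h3 : (Ideal.comap (algebraMap k[X] C) Q').IsMaximal := h2.isMaximal h1
      have h4 : Ideal.IsMaximal (α := C) Q' :=
        Ideal.isMaximal_of_isIntegral_of_isMaximal_comap (R := k[X]) Q' h3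
      exact h4.eq_of_le hQ.ne_top hle)
  refine ⟨C, b, hCfg, hDC, hb, fun c hc => hCb ⟨c, hc⟩, ?_, ?_⟩
  · exact (hbQ ⟨t, hDC ht⟩).2 htQ
  · intro z hz
    obtain ⟨a, d, hd, hzd⟩ := hfr z hz
    refine ⟨a, a.2, d, d.2, ?_, hzd⟩
    rw [hbQ]
    exact hd

end Pool.Agent.H19.UT
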