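import Pool.Agent.H19.UN.SpN

/-!
Project UN, row N07: integral closures over purely transcendental extensions (helper65).
-/

set_option autoImplicit false
set_option maxHeartbeats 400000

open Polynomial Pool.Agent.K1

namespace Pool.Agent.H19.UT

/-- Integral closures over the fraction field of `P`, from integral closures over `k`. -/
theorem n07_main {k P k' : Type} [Field k] [CommRing P] [IsDomain P] [Algebra k P] [Field k']
    [Algebra k k'] [Algebra P k'] [IsScalarTower k P k'] [IsFractionRing P k']
    (hP : Algebra.FiniteType k P)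
    (hk : RICk k) : RICk k' := by
  classical
  intro K _ _ A hA hfrac
  letI : Algebra k K := ((algebraMap k' K).comp (algebraMap k k')).toAlgebra
  haveI : IsScalarTower k k' K := IsScalarTower.of_algebraMap_eq fun _ => rfl
  letI : Algebra P K := ((algebraMap k' K).comp (algebraMap P k')).toAlgebra
  haveI : IsScalarTower P k' K := IsScalarTower.of_algebraMap_eq fun _ => rfl
  haveI : IsScalarTower k P K := by
    refine IsScalarTower.of_algebraMap_eq fun x => ?_
    show algebraMap k' K (algebraMap k k' x) = algebraMap k' K (algebraMap P k' (algebraMap k P x))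
    rw [← IsScalarTower.algebraMap_apply k P k']
  have hinj : Function.Injective (algebraMap P K) :=
    (algebraMap k' K).injective.comp (IsFractionRing.injective P k')
  obtain ⟨S, hS⟩ := hA
  obtain ⟨T, hT⟩ := hP.1
  -- the model over `k`
  set A0 : Subalgebra k K := Algebra.adjoin k ((S : Set K) ∪ (algebraMap P K) '' (T : Set P))
    with hA0
  have hA0fg : A0.FG := by
    refine ⟨S ∪ T.image (algebraMap P K), ?_⟩
    rw [hA0, Finset.coe_union, Finset.coe_image]
  have hPA0 : ∀ p : P, algebraMap P K p ∈ A0 := by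
    intro p
    have hp : p ∈ Algebra.adjoin k (T : Set P) := by rw [hT]; exact Algebra.mem_top
    have h1 : (IsScalarTower.toAlgHom k P K) p ∈
        (Algebra.adjoin k (T : Set P)).map (IsScalarTower.toAlgHom k P K) :=
      ⟨p, hp, rfl⟩
    rw [AlgHom.map_adjoin] at h1
    exact Algebra.adjoin_mono Set.subset_union_right h1
  have hA0A : ∀ z ∈ A0, z ∈ A := by
    have h1 : A0 ≤ A.restrictScalars k := by
      rw [hA0, Algebra.adjoin_le_iff]
      rintro z (hz | ⟨p, -, rfl⟩)
      · show z ∈ A
        rw [← hS]
        exact Algebra.subset_adjoin hz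
      · show algebraMap P K p ∈ A
        exact A.algebraMap_mem (algebraMap P k' p)
    exact h1
  -- clearing denominators
  have hclear : ∀ a ∈ A, ∃ p : P, p ≠ 0 ∧ algebraMap P K p * a ∈ A0 := by
    intro a ha
    rw [← hS] at ha
    induction ha using Algebra.adjoin_induction with
    | mem x hx =>
      refine ⟨1, one_ne_zero, ?_⟩
      rw [map_one, one_mul]
      exact Algebra.subset_adjoin (Or.inl hx)
    | algebraMap r =>
      obtain ⟨x, y, hy, hxy⟩ := IsFractionRing.div_surjective (A := P) r
      refine ⟨y, nonZeroDivisors.ne_zero hy, ?_⟩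
      have hy0 : algebraMap P k' y ≠ 0 := by
        intro h0
        exact nonZeroDivisors.ne_zero hy ((IsFractionRing.injective P k') (by rw [h0, map_zero]))
      have e1 : algebraMap P K y * algebraMap k' K r = algebraMap P K x := by
        show algebraMap k' K (algebraMap P k' y) * algebraMap k' K r =
          algebraMap k' K (algebraMap P k' x)
        rw [← map_mul, ← hxy, mul_div_cancel₀ _ hy0]
      rw [e1]
      exact hPA0 x
    | add x y _ _ hx hy =>
      obtain ⟨p, hp, hpx⟩ := hx
      obtain ⟨q, hq, hqy⟩ := hy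
      refine ⟨p * q, mul_ne_zero hp hq, ?_⟩
      have e1 : algebraMap P K (p * q) * (x + y) =
          algebraMap P K q * (algebraMap P K p * x) + algebraMap P K p * (algebraMap P K q * y) := by
        rw [map_mul]; ring
      rw [e1]
      exact A0.add_mem (A0.mul_mem (hPA0 q) hpx) (A0.mul_mem (hPA0 p) hqy)
    | mul x y _ _ hx hy =>
      obtain ⟨p, hp, hpx⟩ := hx
      obtain ⟨q, hq, hqy⟩ := hy
      refine ⟨p * q, mul_ne_zero hp hq, ?_⟩
      have e1 : algebraMap P K (p * q) * (x * y) =
          (algebraMap P K p * x) * (algebraMap P K q * y) := by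
        rw [map_mul]; ring
      rw [e1]
      exact A0.mul_mem hpx hqy
  have hfrac0 : ∀ z : K, ∃ a ∈ A0, ∃ d ∈ A0, d ≠ 0 ∧ z * d = a := by
    intro z
    obtain ⟨a, ha, d, hd, hd0, hz⟩ := hfrac z
    obtain ⟨p, hp, hpa⟩ := hclear a ha
    obtain ⟨q, hq, hqd⟩ := hclear d hd
    have hp' : algebraMap P K p ≠ 0 := fun h0 => hp (hinj (by rw [h0, map_zero]))
    have hq' : algebraMap P K q ≠ 0 := fun h0 => hq (hinj (by rw [h0, map_zero]))
    refine ⟨algebraMap P K q * (algebraMap P K p * a), A0.mul_mem (hPA0 q) hpa,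
      algebraMap P K p * (algebraMap P K q * d), A0.mul_mem (hPA0 p) hqd,
      mul_ne_zero hp' (mul_ne_zero hq' hd0), ?_⟩
    rw [← hz]
    ring
  obtain ⟨B0, hB0fg, hB0⟩ := hk K A0 hA0fg hfrac0
  obtain ⟨U, hU⟩ := hB0fg
  -- `A` is a localisation of `A0`
  let ι : A0 →+* A :=
    { toFun := fun x => ⟨x.1, hA0A x.1 x.2⟩
      map_one' := rfl
      map_mul' := fun _ _ => rfl
      map_zero' := rfl
      map_add' := fun _ _ => rfl }
  letI : Algebra A0 A := ι.toAlgebra
  haveI : IsScalarTower A0 A K := IsScalarTower.of_algebraMap_eq fun _ => rfl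
  let φ : P →+* A0 :=
    { toFun := fun p => ⟨algebraMap P K p, hPA0 p⟩
      map_one' := Subtype.ext (map_one _)
      map_mul' := fun _ _ => Subtype.ext (map_mul _ _ _)
      map_zero' := Subtype.ext (map_zero _)
      map_add' := fun _ _ => Subtype.ext (map_add _ _ _) }
  let M : Submonoid A0 := (nonZeroDivisors P).map φ
  haveI hloc : IsLocalization M A := by
    refine ⟨?_, ?_, ?_⟩
    · rintro ⟨_, p, hp, rfl⟩
      have hp0 : algebraMap P k' p ≠ 0 := by
        intro h0
        exact nonZeroDivisors.ne_zero hp ((IsFractionRing.injective P k') (by rw [h0, map_zero]))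
      refine IsUnit.of_mul_eq_one (⟨algebraMap k' K (algebraMap P k' p)⁻¹,
        A.algebraMap_mem _⟩ : A) ?_
      apply Subtype.ext
      show algebraMap k' K (algebraMap P k' p) * algebraMap k' K (algebraMap P k' p)⁻¹ = 1
      rw [← map_mul, mul_inv_cancel₀ hp0, map_one]
    · intro a
      obtain ⟨p, hp, hpa⟩ := hclear a.1 a.2
      refine ⟨(⟨_, hpa⟩, ⟨φ p, p, mem_nonZeroDivisors_of_ne_zero hp, rfl⟩), ?_⟩
      apply Subtype.ext
      show a.1 * algebraMap P K p = algebraMap P K p * a.1
      rw [mul_comm]
    · intro x y hxy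
      refine ⟨1, ?_⟩
      have h6 : (x : K) = (y : K) := congrArg (fun a : A => (a : K)) hxy
      rw [Subtype.ext h6]
  refine ⟨Algebra.adjoin k' (U : Set K), ⟨U, rfl⟩, fun z => ⟨fun hz => ?_, fun hz => ?_⟩⟩
  · have h1 : Algebra.adjoin k' (U : Set K) ≤ (integralClosure A K).restrictScalars k' := by
      rw [Algebra.adjoin_le_iff]
      intro u hu
      have h2 : u ∈ B0 := by
        rw [← hU]
        exact Algebra.subset_adjoin hu
      have h3 := (hB0 u).1 h2
      show IsIntegral A u
      exact h3.tower_top
    exact h1 hz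
  · obtain ⟨⟨_, p, hp, rfl⟩, hm⟩ := hz.exists_multiple_integral_of_isLocalization M
    have hp0 : algebraMap P k' p ≠ 0 := by
      intro h0
      exact nonZeroDivisors.ne_zero hp ((IsFractionRing.injective P k') (by rw [h0, map_zero]))
    have h2 : algebraMap P K p * z ∈ B0 := (hB0 _).2 hm
    have h3 : algebraMap P K p * z ∈ Algebra.adjoin k' (U : Set K) := by
      have h4 : B0 ≤ (Algebra.adjoin k' (U : Set K)).restrictScalars k := by
        rw [← hU, Algebra.adjoin_le_iff]
        exact Algebra.subset_adjoin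
      exact h4 h2
    have h5 : z = algebraMap k' K (algebraMap P k' p)⁻¹ * (algebraMap P K p * z) := by
      show z = algebraMap k' K (algebraMap P k' p)⁻¹ * (algebraMap k' K (algebraMap P k' p) * z)
      rw [← mul_assoc, ← map_mul, inv_mul_cancel₀ hp0, map_one, one_mul]
    rw [h5]
    exact Subalgebra.mul_mem _ (Subalgebra.algebraMap_mem _ _) h3

theorem sp_ricN (h4 : SpRIC) : SpRICN := by
  intro k _ _ n
  exact n07_main (k := k) (P := MvPolynomial (Fin n) k) inferInstance
    (fun K _ _ A hA h => h4 k K A hA h)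

end Pool.Agent.H19.UT
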