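import Pool.Agent.H19.UN.SpN
import Pool.Agent.H19.UT.RPre

/-!
Project UN, row N10: the local ring of a point on the curve.
-/

set_option autoImplicit false
set_option maxHeartbeats 400000

open Polynomial Pool.Agent.K1

namespace Pool.Agent.H19.UT

theorem sp_rpreN (h8 : SpRA1N) (h9 : SpRCurN) (h10 : SpRLift) : SpRPreN := by
  intro k K _ _ _ hR hF s hs hk u hu hP
  obtain ⟨A, hAfg, huA, hAs, hfrac, hint⟩ := h8 k K hR hF s hs hk u hu hP
  let : Algebra k (IsLocalRing.ResidueField s) :=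
    ((IsLocalRing.residue s).comp (r11_j s hk)).toAlgebra
  have halg : ∀ a : k, algebraMap k (IsLocalRing.ResidueField s) a =
      IsLocalRing.residue s ⟨algebraMap k K a, hk a⟩ := fun a => rfl
  have halg' : algebraMap k (IsLocalRing.ResidueField s) =
      (IsLocalRing.residue s).comp (r11_j s hk) := rfl
  -- the map from `A` to the residue field
  let ι : A →+* s :=
    { toFun := fun a => ⟨(a : K), hAs a a.2⟩
      map_one' := rfl
      map_mul' := fun _ _ => rfl
      map_zero' := rfl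
      map_add' := fun _ _ => rfl }
  let ρ : A →ₐ[k] IsLocalRing.ResidueField s :=
    { toRingHom := (IsLocalRing.residue s).comp ι
      commutes' := fun c => rfl }
  have hρ : ∀ a : s, (a : K) ∈ A → IsLocalRing.residue s a ∈ ρ.range := by
    intro a ha
    exact ⟨⟨(a : K), ha⟩, rfl⟩
  have hρ' : ∀ z ∈ ρ.range, ∃ a : s, (a : K) ∈ A ∧ IsLocalRing.residue s a = z := by
    rintro z ⟨a, rfl⟩
    exact ⟨ι a, a.2, rfl⟩
  have hDfg : ρ.range.FG := by
    rw [← Algebra.map_top]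
    exact Subalgebra.FG.map _ ((Subalgebra.fg_top A).2 hAfg)
  have hDfr : ∀ z : IsLocalRing.ResidueField s, ∃ a ∈ ρ.range, ∃ d ∈ ρ.range, d ≠ 0 ∧
      z * d = a := by
    intro z
    obtain ⟨x, rfl⟩ := IsLocalRing.residue_surjective z
    obtain ⟨a, ha, d, hd, hdn, hxd⟩ := hfrac x x.2
    refine ⟨_, hρ ⟨a, hAs a ha⟩ ha, _, hρ ⟨d, hAs d hd⟩ hd, ?_, ?_⟩
    · intro h0
      exact hdn ((r11_residue _).1 h0)
    · rw [← map_mul]
      congr 1
      exact Subtype.ext hxd
  have htr : Transcendental k (IsLocalRing.residue s ⟨u, hu⟩) := by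
    rintro ⟨P, hP0, hPt⟩
    apply hP P hP0
    rw [Polynomial.aeval_def, halg', ← Polynomial.hom_eval₂, r11_residue, r11_ev] at hPt
    exact hPt
  have hDint : ∀ a ∈ ρ.range, ∃ F : k[X][X], F.Monic ∧
      F.eval₂ ((aeval (IsLocalRing.residue s ⟨u, hu⟩) :
        k[X] →ₐ[k] IsLocalRing.ResidueField s) : k[X] →+* IsLocalRing.ResidueField s) a = 0 := by
    intro z hz
    obtain ⟨a, haA, rfl⟩ := hρ' z hz
    obtain ⟨F, hFm, hFn⟩ := hint a haA
    refine ⟨F, hFm, ?_⟩
    have h2 : ((aeval (IsLocalRing.residue s ⟨u, hu⟩) :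
        k[X] →ₐ[k] IsLocalRing.ResidueField s) : k[X] →+* IsLocalRing.ResidueField s) =
        (IsLocalRing.residue s).comp (eval₂RingHom (r11_j s hk) ⟨u, hu⟩) := by
      apply RingHom.ext
      intro P
      change aeval (IsLocalRing.residue s ⟨u, hu⟩) P =
        IsLocalRing.residue s (P.eval₂ (r11_j s hk) ⟨u, hu⟩)
      rw [Polynomial.aeval_def, halg', ← Polynomial.hom_eval₂]
    rw [h2, ← Polynomial.hom_eval₂, r11_residue, r11_ev2]
    exact hFn
  obtain ⟨C, b, hCfg, hDC, hb, hCb, htb, hbfr⟩ := h9 k (IsLocalRing.ResidueField s) hR ρ.range hDfg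
    hDfr _ (hρ ⟨u, hu⟩ huA) htr hDint
  exact h10 k K s hk hs halg A C b ⟨u, hu⟩ hAfg hAs hfrac huA hCfg
    (fun a ha => hDC (hρ a ha)) hb hCb htb hbfr

end Pool.Agent.H19.UT
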