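import Pool.Agent.H19.UN.SpN
import Pool.Agent.H19.UT.Basic

/-!
Project UN, row N03 (helper89): tame symbols at a Gauss valuation and evaluation at a point.
-/

set_option autoImplicit false
set_option maxHeartbeats 400000

open Polynomial Pool.Agent.K1

namespace Pool.Agent.H19.UT

section n03

variable {K L : Type} [Field K] [Field L] [Algebra K L] {s : ValuationSubring K} {τ : L} {a : K}

theorem n03_coeff_one (n : ℕ) : (1 : K[X]).coeff n ∈ s := by
  rw [coeff_one]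
  split
  · exact s.one_mem
  · exact s.zero_mem

theorem n03_coeff_mul {P Q : K[X]} (hP : ∀ n, P.coeff n ∈ s) (hQ : ∀ n, Q.coeff n ∈ s) (n : ℕ) :
    (P * Q).coeff n ∈ s := by
  rw [coeff_mul]
  exact sum_mem fun x _ => s.mul_mem _ _ (hP _) (hQ _)

theorem n03_one : RedAt s τ a (1 : Lˣ) (1 : Kˣ) :=
  ⟨1, 1, n03_coeff_one, n03_coeff_one, eval_one, eval_one, by simp⟩

theorem n03_mul {f g : Lˣ} {f0 g0 : Kˣ} (hf : RedAt s τ a f f0) (hg : RedAt s τ a g g0) :
    RedAt s τ a (f * g) (f0 * g0) := by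
  obtain ⟨U, W, hU, hW, hU1, hW1, h⟩ := hf
  obtain ⟨U', W', hU', hW', hU1', hW1', h'⟩ := hg
  refine ⟨U * U', W * W', n03_coeff_mul hU hU', n03_coeff_mul hW hW', ?_, ?_, ?_⟩
  · rw [eval_mul, hU1, hU1', one_mul]
  · rw [eval_mul, hW1, hW1', one_mul]
  · rw [Units.val_mul, Units.val_mul, map_mul, map_mul, map_mul]
    linear_combination (g : L) * aeval τ W' * h + algebraMap K L (f0 : K) * aeval τ U * h'

theorem n03_inv {f : Lˣ} {f0 : Kˣ} (hf : RedAt s τ a f f0) :
    RedAt s τ a f⁻¹ f0⁻¹ := by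
  obtain ⟨U, W, hU, hW, hU1, hW1, h⟩ := hf
  refine ⟨W, U, hW, hU, hW1, hU1, ?_⟩
  rw [Units.val_inv_eq_inv_val, Units.val_inv_eq_inv_val, map_inv₀]
  have h1 : (f : L) ≠ 0 := f.ne_zero
  have h2 : algebraMap K L (f0 : K) ≠ 0 := (_root_.map_ne_zero _).2 f0.ne_zero
  field_simp
  rw [h]
  ring

theorem n03_pow {f : Lˣ} {f0 : Kˣ} (hf : RedAt s τ a f f0) (n : ℕ) :
    RedAt s τ a (f ^ n) (f0 ^ n) := by
  induction n with
  | zero => rw [pow_zero, pow_zero]; exact n03_one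
  | succ n ih => rw [pow_succ, pow_succ]; exact n03_mul ih hf

theorem n03_zpow {f : Lˣ} {f0 : Kˣ} (hf : RedAt s τ a f f0) (n : ℤ) :
    RedAt s τ a (f ^ n) (f0 ^ n) := by
  cases n with
  | ofNat m =>
    rw [Int.ofNat_eq_natCast, zpow_natCast, zpow_natCast]
    exact n03_pow hf m
  | negSucc m =>
    rw [zpow_negSucc, zpow_negSucc]
    exact n03_inv (n03_pow hf (m + 1))

theorem n03_ne {P : K[X]} (h1 : P.eval a = 1) (ha : a ∈ s) :
    ¬ ∀ n, P.coeff n ∈ s.nonunits := by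
  intro h
  have h2 : P.eval a ∈ s.nonunits := by
    rw [eval_eq_sum_range]
    have key : ∀ t : Finset ℕ, ∑ i ∈ t, P.coeff i * a ^ i ∈ s.nonunits := by
      intro t
      induction t using Finset.induction_on with
      | empty => rw [Finset.sum_empty]; exact tord_nonunits_iff.2 (Or.inl rfl)
      | insert i t hi ih =>
        rw [Finset.sum_insert hi]
        refine add_mem ?_ ih
        rw [mul_comm]
        exact nonunits_mul (pow_mem ha i) (h i)
    exact key _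
  rw [h1] at h2
  rcases tord_nonunits_iff.1 h2 with h3 | ⟨-, h3⟩
  · exact one_ne_zero h3
  · exact h3 (by rw [inv_one]; exact s.one_mem)

theorem n03_ord {E : ValuationSubring L} (hE : IsDiscV E) (hG : IsGauss s τ E) (ha : a ∈ s)
    (hK : ∀ f : Kˣ, ordV E (algebraMap K L f) = ordV s (f : K)) {f : Lˣ} {f0 : Kˣ}
    (hf : RedAt s τ a f f0) : ordV E (f : L) = ordV s (f0 : K) := by
  obtain ⟨U, W, hU, hW, hU1, hW1, h⟩ := hf
  have key : ∀ P : K[X], (∀ n, P.coeff n ∈ s) → P.eval a = 1 →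
      aeval τ P ≠ 0 ∧ ordV E (aeval τ P) = 0 := by
    intro P hP h1
    obtain ⟨h2, h3⟩ := hG P hP
    have h4 : ¬ aeval τ P ∈ E.nonunits := fun h5 => n03_ne h1 ha (h3.1 h5)
    have h5 : aeval τ P ≠ 0 := by
      intro h6
      exact h4 (by rw [h6]; exact tord_nonunits_iff.2 (Or.inl rfl))
    refine ⟨h5, ?_⟩
    have h6 := (mem_iff_ordV hE h5).1 h2
    have h7 := mt (nonunits_iff_ordV hE h5).2 h4
    omega
  obtain ⟨hU2, hU3⟩ := key U hU hU1
  obtain ⟨hW2, hW3⟩ := key W hW hW1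
  have h1 := congrArg (ordV E) h
  rw [ordV_mul hE f.ne_zero hW2, ordV_mul hE ((_root_.map_ne_zero _).2 f0.ne_zero) hU2, hU3, hW3,
    hK] at h1
  simpa using h1

theorem n03_sum {E : ValuationSubring L} (hE : IsDiscV E) (hG : IsGauss s τ E) (ha : a ∈ s)
    (hK : ∀ f : Kˣ, ordV E (algebraMap K L f) = ordV s (f : K)) (r : Lˣ → Kˣ)
    (c : Lˣ × Lˣ → ℤ) (t : Finset (Lˣ × Lˣ))
    (h : ∀ x ∈ t, RedAt s τ a x.1 (r x.1) ∧ RedAt s τ a x.2 (r x.2)) :
    RedAt s τ a (sm E (∑ x ∈ t, c x • FreeAbelianGroup.of x))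
      (sm s (FreeAbelianGroup.map (Prod.map r r) (∑ x ∈ t, c x • FreeAbelianGroup.of x))) := by
  classical
  induction t using Finset.induction_on with
  | empty =>
    rw [Finset.sum_empty, map_zero, sm_zero, sm_zero]
    exact n03_one
  | insert x t hx ih =>
    rw [Finset.sum_insert hx, map_add, sm_add, sm_add]
    refine n03_mul ?_ (ih fun y hy => h y (Finset.mem_insert_of_mem hy))
    obtain ⟨h1, h2⟩ := h x (Finset.mem_insert_self x t)
    obtain ⟨f, g⟩ := x
    have h3 : sm E (c (f, g) • FreeAbelianGroup.of (f, g)) =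
        (f ^ ordV E (g : L) * g ^ (-(ordV E (f : L)))) ^ c (f, g) := by
      rw [← sm_of]
      unfold sm
      rw [map_zsmul]
      rfl
    have h4 : sm s (FreeAbelianGroup.map (Prod.map r r)
        (c (f, g) • FreeAbelianGroup.of (f, g))) =
        (r f ^ ordV s (r g : K) * r g ^ (-(ordV s (r f : K)))) ^ c (f, g) := by
      rw [← sm_of, map_zsmul, FreeAbelianGroup.map_of_apply]
      unfold sm
      rw [map_zsmul]
      rfl
    rw [h3, h4, n03_ord hE hG ha hK h1, n03_ord hE hG ha hK h2]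
    exact n03_zpow (n03_mul (n03_zpow h1 _) (n03_zpow h2 _)) _

theorem n03_repr {X : Type} (β : FreeAbelianGroup X) :
    β = ∑ x ∈ FreeAbelianGroup.support β, FreeAbelianGroup.coeff x β • FreeAbelianGroup.of x := by
  conv_lhs => rw [← Finsupp.toFreeAbelianGroup_toFinsupp β]
  rw [Finsupp.toFreeAbelianGroup]
  rfl

theorem sp_red (h3 : SpGauss) : SpRed := by
  intro K L _ _ _ τ hτ s E hs hE a ha β r h
  obtain ⟨-, -, h4⟩ := h3 K L τ hτ s hs
  obtain ⟨h5, -, h6, -⟩ := h4 E hE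
  have h7 := n03_sum h5 hE ha h6 r (fun x => FreeAbelianGroup.coeff x β)
    (FreeAbelianGroup.support β) h
  rwa [← n03_repr β] at h7

end n03

end Pool.Agent.H19.UT
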