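import Pool.Agent.H19.UN.SpN

/-!
Project UN, row N18: a nontrivial valuation ring whose residue field contains `n` independent
elements lives in a field of transcendence degree at least `n + 1`.
-/

set_option autoImplicit false
set_option maxHeartbeats 400000

open Polynomial Pool.Agent.K1

namespace Pool.Agent.H19.UT

section n18

variable {n : ℕ} {k K : Type} [Field k] [Field K] [Algebra k K] {s : ValuationSubring K}

/-- evaluation by means of `finSuccEquiv` -/
theorem n18_eval (z : Fin n → K) (π : K) (p : MvPolynomial (Fin (n + 1)) k) :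
    MvPolynomial.aeval (Fin.cons π z : Fin (n + 1) → K) p =
      eval₂ ((MvPolynomial.aeval z : MvPolynomial (Fin n) k →ₐ[k] K) :
        MvPolynomial (Fin n) k →+* K) π (MvPolynomial.finSuccEquiv k n p) := by
  have h : ((MvPolynomial.aeval (Fin.cons π z : Fin (n + 1) → K) :
      MvPolynomial (Fin (n + 1)) k →ₐ[k] K) : MvPolynomial (Fin (n + 1)) k →+* K) =
      (eval₂RingHom ((MvPolynomial.aeval z : MvPolynomial (Fin n) k →ₐ[k] K) :
        MvPolynomial (Fin n) k →+* K) π).comp
        ((MvPolynomial.finSuccEquiv k n : MvPolynomial (Fin (n + 1)) k ≃ₐ[k] _) :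
          MvPolynomial (Fin (n + 1)) k →+* (MvPolynomial (Fin n) k)[X]) := by
    apply MvPolynomial.ringHom_ext
    · intro r
      have h1 : MvPolynomial.finSuccEquiv k n (MvPolynomial.C r) =
          C (MvPolynomial.C r) := by
        have h2 := (MvPolynomial.finSuccEquiv k n).commutes r
        exact h2
      simp [h1]
    · intro i
      refine Fin.cases ?_ (fun j => ?_) i
      · simp [MvPolynomial.finSuccEquiv_X_zero]
      · simp [MvPolynomial.finSuccEquiv_X_succ]
  exact congrArg (fun f => f p) h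

theorem n18_mem {z : Fin n → K} (hz : ∀ P : MvPolynomial (Fin n) k, P ≠ 0 →
    MvPolynomial.aeval z P ∈ s ∧ MvPolynomial.aeval z P ∉ s.nonunits) {π : K} (hπ : π ∈ s)
    (q : (MvPolynomial (Fin n) k)[X]) :
    eval₂ ((MvPolynomial.aeval z : MvPolynomial (Fin n) k →ₐ[k] K) :
        MvPolynomial (Fin n) k →+* K) π q ∈ s := by
  rw [eval₂_eq_sum_range]
  refine sum_mem fun i _ => s.mul_mem _ _ ?_ (pow_mem hπ i)
  by_cases h : q.coeff i = 0
  · rw [h, map_zero]; exact s.zero_mem
  · exact (hz _ h).1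

theorem n18_zero {z : Fin n → K} (hz : ∀ P : MvPolynomial (Fin n) k, P ≠ 0 →
    MvPolynomial.aeval z P ∈ s ∧ MvPolynomial.aeval z P ∉ s.nonunits) {π : K}
    (hπ : π ∈ s.nonunits) (hπ0 : π ≠ 0) (m : ℕ) (q : (MvPolynomial (Fin n) k)[X])
    (hm : q.natDegree ≤ m)
    (hq : eval₂ ((MvPolynomial.aeval z : MvPolynomial (Fin n) k →ₐ[k] K) :
        MvPolynomial (Fin n) k →+* K) π q = 0) : q = 0 := by
  have hπs : π ∈ s := ValuationSubring.nonunits_subset hπ
  have hdec : ∀ q : (MvPolynomial (Fin n) k)[X],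
      eval₂ ((MvPolynomial.aeval z : MvPolynomial (Fin n) k →ₐ[k] K) :
        MvPolynomial (Fin n) k →+* K) π q =
      eval₂ ((MvPolynomial.aeval z : MvPolynomial (Fin n) k →ₐ[k] K) :
        MvPolynomial (Fin n) k →+* K) π q.divX * π + MvPolynomial.aeval z (q.coeff 0) := by
    intro q
    conv_lhs => rw [← q.divX_mul_X_add]
    rw [eval₂_add, eval₂_mul, eval₂_X, eval₂_C]
    rfl
  have hc0 : ∀ q : (MvPolynomial (Fin n) k)[X],
      eval₂ ((MvPolynomial.aeval z : MvPolynomial (Fin n) k →ₐ[k] K) :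
        MvPolynomial (Fin n) k →+* K) π q = 0 → q.coeff 0 = 0 := by
    intro q hq
    by_contra h
    rw [hdec q] at hq
    apply (hz _ h).2
    rw [eq_neg_of_add_eq_zero_right hq]
    exact s.nonunits.neg_mem (nonunits_mul (n18_mem hz hπs _) hπ)
  induction m generalizing q with
  | zero =>
    rw [eq_C_of_natDegree_le_zero hm, hc0 q hq, map_zero]
  | succ m ih =>
    have h1 := hc0 q hq
    have h2 := hq
    rw [hdec q, h1, map_zero, add_zero] at h2
    have h3 := (mul_eq_zero.1 h2).resolve_right hπ0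
    have h4 := ih q.divX (by rw [natDegree_divX_eq_natDegree_tsub_one]; omega) h3
    rw [← q.divX_mul_X_add, h4, h1, zero_mul, map_zero, add_zero]

end n18

/-- N18: the field has transcendence degree at least `n + 1`. -/
theorem e_relSN : SpErelSN := by
  intro n k K _ _ _ s hs hz
  obtain ⟨z, hz⟩ := hz
  have h1 : ∃ a : K, a ∉ s := by
    by_contra h
    push Not at h
    exact hs (eq_top_iff.2 fun a _ => h a)
  obtain ⟨a, ha⟩ := h1
  have ha0 : a ≠ 0 := fun h => ha (by rw [h]; exact s.zero_mem)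
  have h2 : a⁻¹ ∈ s := (s.mem_or_inv_mem a).resolve_left ha
  have h3 : a⁻¹ ∈ s.nonunits := tord_nonunits_iff.2 (Or.inr ⟨h2, by rwa [inv_inv]⟩)
  refine ⟨Fin.cons a⁻¹ z, ?_⟩
  rw [algebraicIndependent_iff]
  intro p hp
  rw [n18_eval] at hp
  have h4 := n18_zero hz h3 (inv_ne_zero ha0) _ _ le_rfl hp
  exact (map_eq_zero_iff _ (MvPolynomial.finSuccEquiv k n).injective).1 h4

end Pool.Agent.H19.UT
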