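import Pool.Agent.H19.UN.SpN
import Pool.Agent.H19.UT.ResTr

/-!
Project UN, row N19: the residue fields of `W` and of `W ∩ K` (helper48, after helper89).
-/

set_option autoImplicit false
set_option maxHeartbeats 400000

open Polynomial Pool.Agent.K1

namespace Pool.Agent.H19.UT

open Cardinal in
theorem n19_ex (R S : Type) [Field R] [Field S] [Algebra R S] (m : ℕ)
    (h : (m : Cardinal) ≤ Algebra.trdeg R S) : ∃ x : Fin m → S, AlgebraicIndependent R x := by
  obtain ⟨s, hs⟩ := exists_isTranscendenceBasis R S
  have h3 : #(Fin m) ≤ #s := by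
    rw [hs.cardinalMk_eq_trdeg]
    simpa using h
  obtain ⟨f⟩ := Cardinal.le_def _ _ |>.1 h3
  exact ⟨fun i => ((f i : s) : S), hs.1.comp f f.injective⟩

open Cardinal in
/-- The field theoretic part. -/
theorem n19_fields (n : ℕ) (k F G : Type) [Field k] [Field F] [Field G] [Algebra k F]
    [Algebra F G] [Algebra k G] [IsScalarTower k F G] (z : Fin (n + 1) → G)
    (hz : AlgebraicIndependent k z) (hF : ¬ ∃ x : Fin (n + 1) → F, AlgebraicIndependent k x)
    (hd : ¬ ∃ y : Fin 2 → G, AlgebraicIndependent F y) :
    (∃ x : Fin n → F, AlgebraicIndependent k x) ∧ ∃ y : G, Transcendental F y := by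
  have h1 : Algebra.trdeg k F < ((n + 1 : ℕ) : Cardinal) := by
    by_contra h
    exact hF (n19_ex k F (n + 1) (not_lt.1 h))
  have h2 : Algebra.trdeg F G < ((2 : ℕ) : Cardinal) := by
    by_contra h
    exact hd (n19_ex F G 2 (not_lt.1 h))
  obtain ⟨a, ha⟩ := Cardinal.lt_aleph0.1 (h1.trans (Cardinal.natCast_lt_aleph0 (n := n + 1)))
  obtain ⟨b, hb⟩ := Cardinal.lt_aleph0.1 (h2.trans (Cardinal.natCast_lt_aleph0 (n := 2)))
  have h3 : ((n + 1 : ℕ) : Cardinal) ≤ Algebra.trdeg k G := by
    have := hz.cardinalMk_le_trdeg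
    simpa using this
  rw [← trdeg_add_eq k F (A := G), ha, hb, ← Nat.cast_add, Nat.cast_le] at h3
  rw [ha, Nat.cast_lt] at h1
  rw [hb, Nat.cast_lt] at h2
  constructor
  · refine n19_ex k F n ?_
    rw [ha, Nat.cast_le]
    omega
  · obtain ⟨y, hy⟩ := n19_ex F G 1 (by rw [hb, Nat.cast_le]; omega)
    exact ⟨y 0, hy.transcendental 0⟩

theorem e_resN : SpEresN := by
  intro n k K L _ _ _ _ _ _ _ W hW hs hrel
  obtain ⟨z, hz⟩ := hW
  set s : ValuationSubring K := W.comap (algebraMap K L) with hsdef
  -- constants
  have hkW : ∀ c : k, algebraMap k L c ∈ W := by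
    intro c
    by_cases hc : c = 0
    · rw [hc, map_zero]; exact W.zero_mem
    · have := (hz (MvPolynomial.C c) (by simpa using hc)).1
      simpa using this
  have hks : ∀ c : k, algebraMap k K c ∈ s := by
    intro c
    rw [hsdef, ValuationSubring.mem_comap, ← IsScalarTower.algebraMap_apply k K L]
    exact hkW c
  have hzW : ∀ j, z j ∈ W := by
    intro j
    have := (hz (MvPolynomial.X j) (MvPolynomial.X_ne_zero j)).1
    simpa using this
  let ik : k →+* s := (algebraMap k K).codRestrict s.toSubring hks
  let js : s →+* W := ((algebraMap K L).comp s.subtype).codRestrict W.toSubring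
    (fun a => ValuationSubring.mem_comap.1 a.2)
  have hik : ∀ c, ((ik c : s) : K) = algebraMap k K c := fun c => rfl
  have hjs : ∀ a : s, ((js a : W) : L) = algebraMap K L (a : K) := fun a => rfl
  have hloc : IsLocalHom js := by
    refine ⟨fun a ha => ?_⟩
    by_contra hna
    have h1 : a ∈ IsLocalRing.maximalIdeal s := (IsLocalRing.mem_maximalIdeal _).2 hna
    have h2 : (a : K) ∈ s.nonunits := (ValuationSubring.coe_mem_nonunits_iff).2 h1
    have h3 : ((js a : W) : L) ∈ W.nonunits := (comap_nonunits (algebraMap K L) W (a : K)).1 h2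
    have h4 := (ValuationSubring.coe_mem_nonunits_iff).1 h3
    exact (IsLocalRing.mem_maximalIdeal _).1 h4 ha
  let F := IsLocalRing.ResidueField s
  let G := IsLocalRing.ResidueField W
  let rs : s →+* F := IsLocalRing.residue s
  let rW : W →+* G := IsLocalRing.residue W
  let jF : F →+* G := IsLocalRing.ResidueField.map js
  have hjF : ∀ a : s, jF (rs a) = rW (js a) := fun a => IsLocalRing.ResidueField.map_residue js a
  let aF : Algebra k F := (rs.comp ik).toAlgebra
  let aG : Algebra F G := jF.toAlgebra
  let akG : Algebra k G := ((rW.comp js).comp ik).toAlgebra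
  have : IsScalarTower k F G := IsScalarTower.of_algebraMap_eq (fun c => (hjF (ik c)).symm)
  -- z over k
  have hind : AlgebraicIndependent k (fun j => rW ⟨z j, hzW j⟩) := by
    rw [algebraicIndependent_iff]
    intro P hP
    by_contra hne
    obtain ⟨h1, h2⟩ := hz P hne
    apply h2
    have h3 := e04_aeval W (js.comp ik) (fun c => by
      rw [RingHom.comp_apply, hjs, hik, ← IsScalarTower.algebraMap_apply k K L])
      (fun j => (⟨z j, hzW j⟩ : W)) P
    rw [h3, e04_non, e04_res]
    exact hP
  have hup : ∀ m : ℕ, (∃ x : Fin m → F, AlgebraicIndependent k x) → TrN m k s := by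
    rintro m ⟨x, hx⟩
    choose y hy using fun j => IsLocalRing.residue_surjective (x j)
    refine ⟨fun j => (y j : K), fun P hP => ?_⟩
    rw [e04_aeval s ik hik y P]
    refine ⟨SetLike.coe_mem _, ?_⟩
    rw [e04_non, e04_res]
    intro h0
    apply hP
    rw [algebraicIndependent_iff] at hx
    apply hx P
    have h5 : (fun j => IsLocalRing.residue s (y j)) = x := funext hy
    rw [h5] at h0
    exact h0
  have hF : ¬ ∃ x : Fin (n + 1) → F, AlgebraicIndependent k x := fun h => hs (hup _ h)
  have hd : ¬ ∃ y : Fin 2 → G, AlgebraicIndependent F y := by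
    rintro ⟨yG, hx⟩
    choose y hy using fun j => IsLocalRing.residue_surjective (yG j)
    have hyG : (fun j => rW (y j)) = yG := funext hy
    rw [← hyG] at hx
    obtain ⟨P, hP1, ⟨m, hm⟩, hP3⟩ := hrel (fun j => (y j : L))
    -- the polynomial over s
    obtain ⟨Q, hQ⟩ : ∃ Q : MvPolynomial (Fin 2) s, MvPolynomial.map s.subtype Q = P := by
      have : P ∈ Set.range (MvPolynomial.map (σ := Fin 2) s.subtype) := by
        rw [MvPolynomial.mem_range_map_iff_coeffs_subset]
        intro c hc
        simp only [MvPolynomial.coeffs, Finset.coe_image, Set.mem_image] at hc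
        obtain ⟨m', -, rfl⟩ := hc
        exact ⟨⟨_, hP1 m'⟩, rfl⟩
      exact this
    have hcQ : ∀ m', ((Q.coeff m' : s) : K) = P.coeff m' := by
      intro m'
      rw [← hQ, MvPolynomial.coeff_map]; rfl
    have h0 : MvPolynomial.eval₂ js y Q = 0 := by
      apply Subtype.ext
      have h1 : ((MvPolynomial.eval₂ js y Q : W) : L) =
          MvPolynomial.aeval (fun j => (y j : L)) P := by
        have h2 := MvPolynomial.eval₂_comp_left W.subtype js y Q
        rw [MvPolynomial.aeval_def, ← hQ, MvPolynomial.eval₂_map]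
        exact h2
      rw [h1, hP3]; rfl
    have h1 : MvPolynomial.aeval (fun j => rW (y j)) (MvPolynomial.map rs Q) = 0 := by
      have h2 := MvPolynomial.eval₂_comp_left rW js y Q
      rw [h0, map_zero] at h2
      rw [MvPolynomial.aeval_def, MvPolynomial.eval₂_map]
      have h3 : (algebraMap F G).comp rs = rW.comp js := RingHom.ext hjF
      rw [h3]
      exact h2.symm
    have h2 : MvPolynomial.map rs Q = 0 := by
      rw [algebraicIndependent_iff] at hx
      exact hx _ h1
    apply hm
    rw [← hcQ, e04_non]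
    have := congrArg (MvPolynomial.coeff m) h2
    rw [MvPolynomial.coeff_map, MvPolynomial.coeff_zero] at this
    exact this
  obtain ⟨hxn, ⟨y, hy⟩⟩ := n19_fields n k F G _ hind hF hd
  constructor
  · exact hup n hxn
  · obtain ⟨y', hy'⟩ := IsLocalRing.residue_surjective y
    refine ⟨(y' : L), fun P hP => ?_⟩
    obtain ⟨Q, hQ⟩ : ∃ Q : s[X], Q.map s.subtype = P := by
      have : P ∈ Polynomial.lifts s.subtype := by
        rw [Polynomial.lifts_iff_coeff_lifts]
        intro n
        exact ⟨⟨_, hP n⟩, rfl⟩
      rwa [Polynomial.mem_lifts] at this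
    have hcQ : ∀ n, ((Q.coeff n : s) : K) = P.coeff n := by
      intro n
      rw [← hQ, coeff_map]; rfl
    have h1 : aeval (y' : L) P = ((eval₂ js y' Q : W) : L) := by
      have h2 := Polynomial.hom_eval₂ Q js W.subtype y'
      rw [aeval_def, ← hQ, eval₂_map]
      exact h2.symm
    have h2 : rW (eval₂ js y' Q) = aeval y (Q.map rs) := by
      have h3 := Polynomial.hom_eval₂ Q js rW y'
      have h5 : rW y' = y := hy'
      have h6 : (algebraMap F G).comp rs = rW.comp js := RingHom.ext hjF
      rw [h3, aeval_def, eval₂_map, h6, h5]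
    rw [h1]
    refine ⟨SetLike.coe_mem _, ?_⟩
    rw [e04_non]
    change rW (eval₂ js y' Q) = 0 ↔ _
    rw [h2]
    constructor
    · intro h0 n
      have h3 := (transcendental_iff.1 hy) _ h0
      rw [← hcQ, e04_non]
      have h7 : (Q.map rs).coeff n = (0 : F[X]).coeff n := by rw [h3]
      rw [coeff_map, coeff_zero] at h7
      exact h7
    · intro h0
      have h3 : Q.map rs = 0 := by
        ext n
        rw [coeff_map, coeff_zero]
        have := h0 n
        rw [← hcQ, e04_non] at this
        exact this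
      rw [h3, map_zero]

end Pool.Agent.H19.UT
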