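import Pool.Agent.H19.UN.SpN

/-!
Project UN, row N23: from `K` to `K(t)` (helper72).
-/

set_option autoImplicit false
set_option maxHeartbeats 400000

open Polynomial Pool.Agent.K1

namespace Pool.Agent.H19.UT

/-- The order of a constant at a discrete valuation ring which contains all constants. -/
theorem n23_ord {K L : Type} [Field K] [Field L] (φ : K →+* L) {D : ValuationSubring L}
    (hD : IsDiscV D) (h : ∀ a : K, φ a ∈ D) (f : Kˣ) : ordV D (φ f) = 0 := by
  have hne : ∀ f : Kˣ, φ (f : K) ≠ 0 := fun f => (_root_.map_ne_zero φ).2 (Units.ne_zero f)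
  have h2 := (mem_iff_ordV hD (hne f)).1 (h f)
  have h3 := (mem_iff_ordV hD (hne f⁻¹)).1 (h _)
  rw [Units.val_inv_eq_inv_val, map_inv₀, ordV_inv hD (hne f)] at h3
  omega

theorem sp_step (h3 : SpGauss) (ht : SpTate) (hi : SpInf) (hk : SpKPl) (h4 : SpGf)
    (hd : SpDown) (hct : SpCTN) (he : SpAllDivN) : SpStep := by
  intro p n k K L _ _ _ _ _ _ _ hB hF τ hτ hK1 d
  have := hB.closed
  have := hB.char
  have : Fact p.Prime := ⟨hB.prime⟩
  have : Infinite k := IsAlgClosed.instInfinite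
  obtain ⟨α, hα⟩ := ht K L τ hτ d
  have hd1 : HDat (K := K) τ (d.tw 1 α) := by
    intro D hD hK hτD
    have h1 := hα D ⟨hD, hK, hτD⟩
    change TorsV D ((d.tw 1 α).val D)
    rw [Dat.val_tw, pow_one]
    exact h1
  obtain ⟨d', hd'⟩ := hd p k K L hB τ hτ (d.tw 1 α) hd1
  obtain ⟨N, γ, hN, hγ⟩ := hK1 d'
  obtain ⟨g₀, hg₀⟩ := (h4 p k K L hB τ hτ _ hd1).1
  have hd2 : HDat (K := K) τ ((d.tw 1 α).tw N (Sy.map (algebraMap K L) γ)) := by
    intro D hD hK hτD
    change TorsV D (((d.tw 1 α).tw N (Sy.map (algebraMap K L) γ)).val D)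
    rw [Dat.val_tw, sm_map_one (algebraMap K L) (n23_ord (algebraMap K L) hD hK), inv_one,
      mul_one]
    exact torsV_pow (hd1 D hD hK hτD) N
  have hE : ∀ s : ValuationSubring K, IsDiscV s → TrN (n + 1) k s → ∀ E : ValuationSubring L,
      IsGauss s τ E → ((d.tw 1 α).tw N (Sy.map (algebraMap K L) γ)).Triv E := by
    intro s hsd htr E hEg
    obtain ⟨-, hEs, hord, -⟩ := (h3 K L τ hτ s hsd).2.2 E hEg
    have h2 := (hg₀ s hsd).2 E hEg
    have h5 := hd' s hsd (g₀ s) (hg₀ s hsd)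
    have h6 := hγ s hsd htr
    have hsm : sm E (Sy.map (algebraMap K L) γ) =
        Units.map (algebraMap K L : K →* L) (sm s γ) := by
      have h6 := sm_map_pow (algebraMap K L) (D' := E) 1 (fun f => by
        rw [hEs, hord, Nat.cast_one, one_mul]) γ
      rw [hEs, pow_one] at h6
      exact h6
    have h7 : TorsV E (Units.map (algebraMap K L : K →* L) (d'.val s * (g₀ s)⁻¹)) := by
      rw [torsV_map, hEs]
      exact h5
    have h8 : TorsV E (Units.map (algebraMap K L : K →* L) (sm s γ * (d'.val s ^ N)⁻¹)) := by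
      rw [torsV_map, hEs]
      exact h6
    change TorsV E (((d.tw 1 α).tw N (Sy.map (algebraMap K L) γ)).val E)
    rw [Dat.val_tw, hsm]
    have h9 := torsV_mul (torsV_mul (torsV_pow h2 N) (torsV_inv (torsV_pow h7 N)))
      (torsV_inv h8)
    have h10 : ((d.tw 1 α).val E * (Units.map (algebraMap K L : K →* L) (g₀ s))⁻¹) ^ N *
        (Units.map (algebraMap K L : K →* L) (d'.val s * (g₀ s)⁻¹) ^ N)⁻¹ *
        (Units.map (algebraMap K L : K →* L) (sm s γ * (d'.val s ^ N)⁻¹))⁻¹ =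
        (d.tw 1 α).val E ^ N * (Units.map (algebraMap K L : K →* L) (sm s γ))⁻¹ := by
      rw [map_mul, map_mul, map_inv, map_inv, map_pow, mul_pow, mul_pow, inv_pow, mul_inv,
        mul_inv, inv_inv, inv_inv]
      generalize (d.tw 1 α).val E ^ N = a
      generalize Units.map (algebraMap K L : K →* L) (sm s γ) = b
      generalize (Units.map (algebraMap K L : K →* L) (d'.val s)) ^ N = c
      generalize (Units.map (algebraMap K L : K →* L) (g₀ s)) ^ N = e
      calc a * e⁻¹ * (c⁻¹ * e) * (b⁻¹ * c) = a * (e * e⁻¹) * (c * c⁻¹) * b⁻¹ := by ac_rfl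
        _ = a * b⁻¹ := by simp
    rw [← h10]
    exact h9
  obtain ⟨S0, hS0⟩ := hF.fg
  have hkp : KPl k K := hk p k K hB.tors S0 hS0
  have hinf := hi k K L τ hτ hkp _ hd2
  have hct' := hct p n k K L hB hF τ hτ _ hd2 hE
  have hfin := he p (n + 1) k K L hB hF τ hτ _ hd2 hinf hct'
  refine ⟨N, N • α + Sy.map (algebraMap K L) γ, hN, fun W hW htr => ?_⟩
  have h1 := hfin W hW htr
  change TorsV W (((d.tw 1 α).tw N (Sy.map (algebraMap K L) γ)).val W) at h1
  rw [Dat.val_tw, Dat.val_tw, pow_one] at h1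
  have h2 := torsV_inv h1
  rw [sm_add, sm_nsmul]
  have h9 : ((d.val W * (sm W α)⁻¹) ^ N * (sm W (Sy.map (algebraMap K L) γ))⁻¹)⁻¹ =
      sm W α ^ N * sm W (Sy.map (algebraMap K L) γ) * (d.val W ^ N)⁻¹ := by
    rw [mul_inv, inv_inv, mul_pow, inv_pow, mul_inv, inv_inv]
    rw [mul_comm (d.val W ^ N)⁻¹, mul_assoc, mul_comm (d.val W ^ N)⁻¹, ← mul_assoc]
  rw [← h9]
  exact h2

end Pool.Agent.H19.UT
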