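import Pool.Agent.H19.UN.SpN

/-!
Project UN, row N22: the theorem for function fields of regular projective surfaces (helper63).
-/

set_option autoImplicit false
set_option maxHeartbeats 400000

open Polynomial Pool.Agent.K1

namespace Pool.Agent.H19.UT

/-- The entries of a symbol: outside of finitely many units the symbol is `1`. -/
theorem n22_sm {K : Type} [Field K] (β : Sy K) : ∃ C : Set Kˣ, C.Finite ∧
    ∀ s : ValuationSubring K, IsDiscV s → (∀ c ∈ C, UnitIn s c) → sm s β = 1 := by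
  induction β using FreeAbelianGroup.induction_on with
  | zero => exact ⟨∅, Set.finite_empty, fun s _ _ => sm_zero s⟩
  | of p =>
    obtain ⟨f, g⟩ := p
    refine ⟨{f, g}, (Set.finite_singleton g).insert f, fun s hd h => ?_⟩
    have h3 := (unitIn_iff_ordV hd f).1 (h f (Or.inl rfl))
    have h4 := (unitIn_iff_ordV hd g).1 (h g (Or.inr rfl))
    rw [sm_of, h3, h4]
    simp
  | neg p hp =>
    obtain ⟨C, hC, h1⟩ := hp
    refine ⟨C, hC, fun s hd h => ?_⟩
    rw [sm_neg, h1 s hd h, inv_one]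
  | add x y hx hy =>
    obtain ⟨C, hC, h1⟩ := hx
    obtain ⟨C', hC', h2⟩ := hy
    refine ⟨C ∪ C', hC.union hC', fun s hd h => ?_⟩
    rw [sm_add, h1 s hd fun c hc => h c (Or.inl hc),
      h2 s hd fun c hc => h c (Or.inr hc), one_mul]

/-- Only finitely many curves of the surface carry a nontrivial symbol. -/
theorem n22_fin {k K : Type} [Field k] [Field K] [Algebra k K] (S : Surf k K) (d : Dat K) :
    {s : ValuationSubring K | s ∈ S.S1 ∧ ¬ TorsV s (d.val s)}.Finite := by
  choose C hC h1 using fun i : Fin d.m => n22_sm (d.β i)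
  have hfin : (⋃ i, C i).Finite := Set.finite_iUnion hC
  have hfin2 : (⋃ f ∈ ⋃ i, C i, {s : ValuationSubring K | s ∈ S.S1 ∧ ¬ UnitIn s f}).Finite :=
    hfin.biUnion fun f _ => S.fin f
  refine hfin2.subset ?_
  rintro s ⟨hs, hs'⟩
  by_contra hcon
  apply hs'
  have hunit : ∀ c ∈ C (d.idx s), UnitIn s c := by
    intro c hc
    by_contra h4
    apply hcon
    exact Set.mem_biUnion (Set.mem_iUnion.2 ⟨_, hc⟩) ⟨hs, h4⟩
  have h5 : d.val s = 1 := h1 (d.idx s) s (S.disc s hs) hunit
  rw [h5]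
  exact torsV_one

/-- The values of data on `K` form a cycle. -/
theorem n22_cyc (hc : SpCycle) (hf : SpFin) (k K : Type) [Field k] [Infinite k] [Field K]
    [Algebra k K] (d : Dat K) : CycK k d.val where
  unit s hs := unitIn_sm hs _
  fin R hR := hf k K d R hR
  sum R hR := hc k K d R hR

theorem n22_tr {k K : Type} [Field k] [Field K] [Algebra k K] {s : ValuationSubring K}
    (h : TrN 1 k s) : Tr1 k s := by
  obtain ⟨z, hz⟩ := h
  refine ⟨z 0, fun P hP => ?_⟩
  have h1 : aeval (MvPolynomial.X 0 : MvPolynomial (Fin 1) k) P ≠ 0 := by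
    intro h0
    exact hP ((transcendental_iff.1 (MvPolynomial.transcendental_X k (0 : Fin 1))) P h0)
  have h2 : MvPolynomial.aeval z (aeval (MvPolynomial.X 0 : MvPolynomial (Fin 1) k) P) =
      aeval (z 0) P := by
    rw [← Polynomial.aeval_algHom_apply, MvPolynomial.aeval_X]
  have h3 := hz _ h1
  rw [h2] at h3
  exact h3

/-- N22 -/
theorem sp_thm1 (hc : SpCycle) (hf : SpFin) (hd : SpCDesc) : SpThm1 := by
  intro p k K _ _ _ hB S d
  have := hB.closed
  have : Infinite k := IsAlgClosed.instInfinite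
  have hcyc := n22_cyc hc hf k K d
  obtain ⟨N, γ, hN, hγ⟩ := S.kill d.val (fun s hs => hcyc.unit s (S.disc s hs)) (n22_fin S d)
    (fun R hR => hcyc.sum R (S.reg R hR))
  have hcyc' := n22_cyc hc hf k K (d.tw N γ)
  have hinv : ∀ s : ValuationSubring K,
      TorsV s ((d.tw N γ).val s) ↔ TorsV s (sm s γ * (d.val s ^ N)⁻¹) := by
    intro s
    rw [Dat.val_tw]
    have h1 : (d.val s ^ N * (sm s γ)⁻¹)⁻¹ = sm s γ * (d.val s ^ N)⁻¹ := by
      rw [mul_inv, inv_inv, mul_comm]
    constructor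
    · intro h
      rw [← h1]
      exact torsV_inv h
    · intro h
      rw [← h1] at h
      have h2 := torsV_inv h
      rwa [inv_inv] at h2
  have hS1 : ∀ s ∈ S.S1, TorsV s ((d.tw N γ).val s) := fun s hs => (hinv s).2 (hγ s hs)
  refine ⟨N, γ, hN, fun s hs htr => (hinv s).1 ?_⟩
  rcases S.ctr s (discV_ne_top hs) with h | ⟨R, hR, hdom⟩
  · exact hS1 s h
  · exact hd p k K hB _ hcyc' R (S.reg R hR) (S.res R hR)
      (fun s' hs' => hS1 s' (S.on R hR s' hs')) s hs hdom (n22_tr htr)

end Pool.Agent.H19.UT
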