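import Pool.Agent.H19.UN.SpN

/-!
Project UN, row N26: one more variable.
-/

set_option autoImplicit false
set_option maxHeartbeats 400000

open Polynomial Pool.Agent.K1

namespace Pool.Agent.H19.UT

section

variable (m : ℕ) (K : Type) [Field K]

/-- The inclusion of the polynomials in one variable less. -/
noncomputable def n26_i : MvPolynomial (Fin m) K →+* MvPolynomial (Fin (m + 1)) K :=
  (MvPolynomial.rename (R := K) (Fin.succ : Fin m → Fin (m + 1))).toRingHom

theorem n26_ev (p : MvPolynomial (Fin (m + 1)) K) :
    eval₂ (n26_i m K) (MvPolynomial.X 0) (MvPolynomial.finSuccEquiv K m p) = p := by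
  let ψ : (MvPolynomial (Fin m) K)[X] →ₐ[K] MvPolynomial (Fin (m + 1)) K :=
    { eval₂RingHom (n26_i m K) (MvPolynomial.X 0) with
      commutes' := fun c => by
        show eval₂ (n26_i m K) (MvPolynomial.X 0) (algebraMap K _ c) = _
        rw [Polynomial.algebraMap_apply, eval₂_C]
        show MvPolynomial.rename _ (algebraMap K _ c) = _
        exact AlgHom.commutes _ c }
  have h : ψ.comp (MvPolynomial.finSuccEquiv K m).toAlgHom = AlgHom.id K _ := by
    refine MvPolynomial.algHom_ext fun i => ?_
    refine Fin.cases ?_ (fun j => ?_) i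
    · show eval₂ (n26_i m K) (MvPolynomial.X 0)
        (MvPolynomial.finSuccEquiv K m (MvPolynomial.X 0)) = _
      rw [MvPolynomial.finSuccEquiv_X_zero, eval₂_X]
      rfl
    · show eval₂ (n26_i m K) (MvPolynomial.X 0)
        (MvPolynomial.finSuccEquiv K m (MvPolynomial.X j.succ)) = _
      rw [MvPolynomial.finSuccEquiv_X_succ, eval₂_C]
      show MvPolynomial.rename _ (MvPolynomial.X j) = _
      rw [MvPolynomial.rename_X]
      rfl
  exact DFunLike.congr_fun h p

theorem n26_inj : Function.Injective ((algebraMap (MvPolynomial (Fin (m + 1)) K)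
    (FractionRing (MvPolynomial (Fin (m + 1)) K))).comp (n26_i m K)) := by
  have h : Function.Injective (n26_i m K) :=
    MvPolynomial.rename_injective _ (Fin.succ_injective m)
  exact (IsFractionRing.injective (MvPolynomial (Fin (m + 1)) K)
    (FractionRing (MvPolynomial (Fin (m + 1)) K))).comp h

/-- The inclusion of the fields. -/
noncomputable def n26_phi : FractionRing (MvPolynomial (Fin m) K) →+*
    FractionRing (MvPolynomial (Fin (m + 1)) K) := IsFractionRing.lift (n26_inj m K)

theorem n26_phi_map (a : MvPolynomial (Fin m) K) :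
    n26_phi m K (algebraMap _ _ a) = algebraMap _ _ (n26_i m K a) :=
  IsFractionRing.lift_algebraMap (n26_inj m K) a

theorem n26_aev (P : (MvPolynomial (Fin m) K)[X]) :
    eval₂ ((n26_phi m K).comp (algebraMap (MvPolynomial (Fin m) K)
      (FractionRing (MvPolynomial (Fin m) K))))
      (algebraMap (MvPolynomial (Fin (m + 1)) K) _ (MvPolynomial.X 0)) P =
    algebraMap _ _ ((MvPolynomial.finSuccEquiv K m).symm P) := by
  have e : (n26_phi m K).comp (algebraMap (MvPolynomial (Fin m) K)
      (FractionRing (MvPolynomial (Fin m) K))) =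
      (algebraMap (MvPolynomial (Fin (m + 1)) K)
        (FractionRing (MvPolynomial (Fin (m + 1)) K))).comp (n26_i m K) :=
    RingHom.ext fun a => n26_phi_map m K a
  rw [e, ← hom_eval₂]
  congr 1
  have := n26_ev m K ((MvPolynomial.finSuccEquiv K m).symm P)
  rwa [AlgEquiv.apply_symm_apply] at this

theorem n26_coord :
    letI := (n26_phi m K).toAlgebra
    Coord (FractionRing (MvPolynomial (Fin m) K)) (FractionRing (MvPolynomial (Fin (m + 1)) K))
      (algebraMap (MvPolynomial (Fin (m + 1)) K) _ (MvPolynomial.X 0)) := by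
  let _ := (n26_phi m K).toAlgebra
  have key : ∀ P : (MvPolynomial (Fin m) K)[X],
      aeval (algebraMap (MvPolynomial (Fin (m + 1)) K)
        (FractionRing (MvPolynomial (Fin (m + 1)) K)) (MvPolynomial.X 0))
        (P.map (algebraMap _ (FractionRing (MvPolynomial (Fin m) K)))) =
      algebraMap _ _ ((MvPolynomial.finSuccEquiv K m).symm P) := by
    intro P
    rw [aeval_def, eval₂_map]
    exact n26_aev m K P
  refine ⟨?_, fun f => ?_⟩
  · rintro ⟨P, hP, h0⟩
    obtain ⟨b, hbm, hb⟩ := IsLocalization.integerNormalization_spec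
      (nonZeroDivisors (MvPolynomial (Fin m) K)) P
    have hb0 : algebraMap _ (FractionRing (MvPolynomial (Fin m) K)) b ≠ 0 := by
      intro h
      exact nonZeroDivisors.ne_zero hbm ((IsFractionRing.injective _
        (FractionRing (MvPolynomial (Fin m) K))) (by rw [h, map_zero]))
    have h1 := key (IsLocalization.integerNormalization
      (nonZeroDivisors (MvPolynomial (Fin m) K)) P)
    rw [hb, ← IsScalarTower.algebraMap_smul (FractionRing (MvPolynomial (Fin m) K)), map_smul,
      h0, smul_zero] at h1
    have h2 : IsLocalization.integerNormalization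
        (nonZeroDivisors (MvPolynomial (Fin m) K)) P = 0 := by
      have h3 : (MvPolynomial.finSuccEquiv K m).symm (IsLocalization.integerNormalization
          (nonZeroDivisors (MvPolynomial (Fin m) K)) P) = 0 :=
        (IsFractionRing.injective (MvPolynomial (Fin (m + 1)) K)
          (FractionRing (MvPolynomial (Fin (m + 1)) K))) (by rw [← h1, map_zero])
      exact (map_eq_zero_iff _ (MvPolynomial.finSuccEquiv K m).symm.injective).1 h3
    rw [h2, Polynomial.map_zero, ← IsScalarTower.algebraMap_smul
      (FractionRing (MvPolynomial (Fin m) K))] at hb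
    exact hP ((smul_eq_zero.1 hb.symm).resolve_left hb0)
  · obtain ⟨a, b, hb, rfl⟩ := IsFractionRing.div_surjective (A := MvPolynomial (Fin (m + 1)) K) f
    have hb0 : algebraMap _ (FractionRing (MvPolynomial (Fin (m + 1)) K)) b ≠ 0 := by
      intro h
      exact nonZeroDivisors.ne_zero hb ((IsFractionRing.injective _
        (FractionRing (MvPolynomial (Fin (m + 1)) K))) (by rw [h, map_zero]))
    refine ⟨(MvPolynomial.finSuccEquiv K m a).map (algebraMap _ _),
      (MvPolynomial.finSuccEquiv K m b).map (algebraMap _ _), ?_, ?_⟩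
    · rw [key, AlgEquiv.symm_apply_apply]
      exact hb0
    · rw [key, key, AlgEquiv.symm_apply_apply, AlgEquiv.symm_apply_apply]
      exact div_mul_cancel₀ _ hb0

end

/-- N26: one more variable. -/
theorem sp_towC : SpTowC := by
  intro m k K _ _ _
  refine ⟨n26_phi m K, algebraMap (MvPolynomial (Fin (m + 1)) K) _ (MvPolynomial.X 0), ?_,
    n26_coord m K⟩
  intro c
  rw [IsScalarTower.algebraMap_apply k (MvPolynomial (Fin m) K) (FractionRing _), n26_phi_map,
    IsScalarTower.algebraMap_apply k (MvPolynomial (Fin (m + 1)) K) (FractionRing _)]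
  congr 1
  rw [MvPolynomial.algebraMap_apply, MvPolynomial.algebraMap_apply]
  exact MvPolynomial.rename_C _ _

end Pool.Agent.H19.UT
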