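import Pool.Agent.H19.UN.SpN

/-!
Project UN, row N27: fields of rational functions.
-/

set_option autoImplicit false
set_option maxHeartbeats 400000

open Polynomial Pool.Agent.K1

namespace Pool.Agent.H19.UT

/-- `FgN` for isomorphic fields. -/
theorem n27_fg_iso {n : ℕ} {k K L : Type} [Field k] [Field K] [Field L] [Algebra k K]
    [Algebra k L] (e : K ≃ₐ[k] L) (h : FgN n k K) : FgN n k L := by
  classical
  refine ⟨?_, fun z => ?_⟩
  · obtain ⟨S, hS⟩ := h.fg
    refine ⟨S.image e, fun E hk hSE => ?_⟩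
    have h1 : E.comap (e : K →+* L) = ⊤ := by
      refine hS _ (fun c => ?_) fun a ha => ?_
      · rw [Subfield.mem_comap]
        have h2 : (e : K →+* L) (algebraMap k K c) = algebraMap k L c := e.commutes c
        rw [h2]
        exact hk c
      · rw [Subfield.mem_comap]
        exact hSE _ (Finset.mem_image_of_mem e ha)
    rw [eq_top_iff]
    intro x _
    have h3 : e.symm x ∈ E.comap (e : K →+* L) := by
      rw [h1]
      exact Subfield.mem_top _
    rw [Subfield.mem_comap] at h3
    have h4 : (e : K →+* L) (e.symm x) = x := e.apply_symm_apply x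
    rwa [h4] at h3
  · obtain ⟨P, hP, hPz⟩ := h.dim fun i => e.symm (z i)
    refine ⟨P, hP, ?_⟩
    have h1 := congrArg e hPz
    rw [map_zero] at h1
    rw [← h1]
    have h2 := MvPolynomial.comp_aeval (R := k) (fun i => e.symm (z i)) (e : K →ₐ[k] L)
    have h3 := DFunLike.congr_fun h2 P
    rw [AlgHom.comp_apply] at h3
    have h4 : (fun i => (e : K →ₐ[k] L) (e.symm (z i))) = z := by
      funext i
      exact e.apply_symm_apply (z i)
    rw [h4] at h3
    exact h3.symm

/-- The field of rational functions in no variables. -/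
theorem n27_zero (k K : Type) [Field k] [Field K] [Algebra k K] :
    Nonempty (K ≃ₐ[k] FractionRing (MvPolynomial (Fin 0) K)) := by
  let f : K →ₐ[k] FractionRing (MvPolynomial (Fin 0) K) :=
    IsScalarTower.toAlgHom k K (FractionRing (MvPolynomial (Fin 0) K))
  refine ⟨AlgEquiv.ofBijective f ⟨f.toRingHom.injective, fun x => ?_⟩⟩
  obtain ⟨a, b, hb, rfl⟩ := IsFractionRing.div_surjective (A := MvPolynomial (Fin 0) K) x
  have h1 : ∀ a : MvPolynomial (Fin 0) K, ∃ c : K, f c = algebraMap _ _ a := by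
    intro a
    refine ⟨MvPolynomial.isEmptyAlgEquiv K (Fin 0) a, ?_⟩
    have h2 : MvPolynomial.C (MvPolynomial.isEmptyAlgEquiv K (Fin 0) a) = a := by
      obtain ⟨c, rfl⟩ := MvPolynomial.C_surjective (Fin 0) a
      congr 1
      exact (MvPolynomial.isEmptyAlgEquiv K (Fin 0)).commutes c
    conv_rhs => rw [← h2]
    exact IsScalarTower.algebraMap_apply K (MvPolynomial (Fin 0) K) _ _
  obtain ⟨c, hc⟩ := h1 a
  obtain ⟨d, hd⟩ := h1 b
  exact ⟨c / d, by rw [map_div₀, hc, hd]⟩

theorem sp_tower (hi : SpIso) (hc : SpTowC) (hf : SpFgStep) (hs : SpStep) : SpTower := by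
  intro p k K _ _ _ hb hK hT m
  suffices h : FgN (m + 2) k (FractionRing (MvPolynomial (Fin m) K)) ∧
      ThmK (m + 1) k (FractionRing (MvPolynomial (Fin m) K)) from h.2
  induction m with
  | zero =>
    obtain ⟨e⟩ := n27_zero k K
    exact ⟨n27_fg_iso e hK, hi 1 k K _ e hT⟩
  | succ m ih =>
    obtain ⟨φ, τ, hφ, hτ⟩ := hc m k K
    let _ := φ.toAlgebra
    have : IsScalarTower k (FractionRing (MvPolynomial (Fin m) K))
        (FractionRing (MvPolynomial (Fin (m + 1)) K)) :=
      IsScalarTower.of_algebraMap_eq fun c => (hφ c).symm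
    exact ⟨hf (m + 2) k _ _ ih.1 τ hτ, hs p m k _ _ hb ih.1 τ hτ ih.2⟩

end Pool.Agent.H19.UT
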