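import Pool.Agent.H19.UN.SpN

/-!
Project UN, row N11: a transcendental residue is part of a family of independent residues
(helper30).
-/

set_option autoImplicit false
set_option maxHeartbeats 400000

open Polynomial Pool.Agent.K1

namespace Pool.Agent.H19.UT

/-- Exchange: a transcendental element is part of a family of `n + 1` independent elements. -/
theorem n11_exchange {k κ : Type} [Field k] [Field κ] [Algebra k κ] (n : ℕ) (u : κ)
    (hu : Transcendental k u) (z : Fin (n + 1) → κ) (hz : AlgebraicIndependent k z) :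
    ∃ w : Fin n → κ, AlgebraicIndependent k (fun o : Option (Fin n) => o.elim u w) := by
  classical
  let Mt := AlgebraicIndependent.matroid k κ
  have hJ : Mt.Indep (Set.range z) := hz.to_subtype_range
  have hJc : (Set.range z).encard = ((n + 1 : ℕ) : ℕ∞) := by
    rw [← Set.image_univ, hz.injective.encard_image, Set.encard_univ]
    simp
  have hI0 : Mt.Indep ({u} : Set κ) := by
    have h1 := (algebraicIndependent_singleton_iff (R := k)
      (x := fun i : ({u} : Set κ) => id (i : κ)) ⟨u, rfl⟩).2 hu
    exact h1
  have key : ∀ m : ℕ, m ≤ n → ∃ I : Set κ, u ∈ I ∧ Mt.Indep I ∧ I.encard = ((m + 1 : ℕ) : ℕ∞) := by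
    intro m
    induction m with
    | zero =>
      intro _
      exact ⟨{u}, rfl, hI0, by simp⟩
    | succ m ih =>
      intro hm
      obtain ⟨I, huI, hI, hc⟩ := ih (by omega)
      have hlt : I.encard < (Set.range z).encard := by
        rw [hc, hJc]
        exact_mod_cast (by omega : m + 1 < n + 1)
      obtain ⟨e, he, hins⟩ := hI.augment hJ hlt
      refine ⟨insert e I, Set.mem_insert_of_mem _ huI, hins, ?_⟩
      rw [Set.encard_insert_of_notMem he.2, hc]
      push_cast
      rfl
  obtain ⟨I, huI, hI, hc⟩ := key n le_rfl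
  have hd : (I \ {u}).encard = (n : ℕ∞) := by
    have h1 := Set.encard_sdiff_singleton_add_one huI
    rw [hc] at h1
    push_cast at h1
    exact WithTop.add_right_cancel (by simp : (1 : ℕ∞) ≠ ⊤) h1
  have hfin : (I \ {u}).Finite := Set.finite_of_encard_eq_coe hd
  have hcard : Nat.card (I \ {u} : Set κ) = n := by
    have h2 : (I \ {u}).ncard = n := by
      rw [Set.ncard, hd]; simp
    exact h2
  have : Finite (I \ {u} : Set κ) := hfin
  let e : Fin n ≃ (I \ {u} : Set κ) := (Finite.equivFinOfCardEq hcard).symm
  let w : Fin n → κ := fun i => (e i : κ)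
  have hI' : AlgebraicIndependent k (fun i : I => (i : κ)) := hI
  let g : Option (Fin n) → I := fun o => o.elim ⟨u, huI⟩ (fun i => ⟨(e i : κ), (e i).2.1⟩)
  have hg : Function.Injective g := by
    intro a b hab
    have hab' := congrArg (Subtype.val : I → κ) hab
    cases a with
    | none =>
      cases b with
      | none => rfl
      | some j => exact absurd hab'.symm (e j).2.2
    | some i =>
      cases b with
      | none => exact absurd hab' (e i).2.2
      | some j =>
        have h3 : e i = e j := Subtype.ext hab'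
        rw [e.injective h3]
  refine ⟨w, ?_⟩
  have h4 := hI'.comp g hg
  have h5 : ((fun i : I => (i : κ)) ∘ g) = fun o : Option (Fin n) => o.elim u w := by
    funext o
    cases o <;> rfl
  rw [h5] at h4
  exact h4

/-- A nonzero polynomial in `n` variables over `k[X]` does not vanish at independent elements. -/
theorem n11_eval {k κ : Type} [Field k] [Field κ] [Algebra k κ] (n : ℕ) (u : κ)
    (w : Fin n → κ) (h : AlgebraicIndependent k (fun o : Option (Fin n) => o.elim u w))
    (P : MvPolynomial (Fin n) k[X]) (hP : P ≠ 0) :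
    P.eval₂ ((aeval u : k[X] →ₐ[k] κ) : k[X] →+* κ) w ≠ 0 := by
  have h1 : ∀ Q : MvPolynomial (Option (Fin n)) k,
      (MvPolynomial.optionEquivRight k (Fin n) Q).eval₂
        ((aeval u : k[X] →ₐ[k] κ) : k[X] →+* κ) w =
      MvPolynomial.aeval (fun o : Option (Fin n) => o.elim u w) Q := by
    intro Q
    have h2 : (MvPolynomial.eval₂Hom ((aeval u : k[X] →ₐ[k] κ) : k[X] →+* κ) w).comp
        ((MvPolynomial.optionEquivRight k (Fin n) :
          MvPolynomial (Option (Fin n)) k ≃ₐ[k] MvPolynomial (Fin n) k[X]) :
          MvPolynomial (Option (Fin n)) k →+* MvPolynomial (Fin n) k[X]) =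
        ((MvPolynomial.aeval (fun o : Option (Fin n) => o.elim u w) :
          MvPolynomial (Option (Fin n)) k →ₐ[k] κ) : MvPolynomial (Option (Fin n)) k →+* κ) := by
      apply MvPolynomial.ringHom_ext
      · intro c
        have h3 := MvPolynomial.optionEquivRight_C k (Fin n) c
        simp [h3]
      · intro o
        cases o with
        | none =>
          have h3 := MvPolynomial.optionEquivRight_X_none k (Fin n)
          simp [h3]
        | some i =>
          have h3 := MvPolynomial.optionEquivRight_X_some k (Fin n) i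
          simp [h3]
    exact congrArg (fun φ : MvPolynomial (Option (Fin n)) k →+* κ => φ Q) h2
  obtain ⟨Q, rfl⟩ := (MvPolynomial.optionEquivRight k (Fin n)).surjective P
  rw [h1]
  intro h0
  apply hP
  have h6 : Q = 0 := (algebraicIndependent_iff_injective_aeval.1 h) (by rw [h0, map_zero])
  rw [h6, map_zero]

theorem sp_xch : SpXch := by
  intro n k K _ _ _ s hs u hu htr
  obtain ⟨z, hz⟩ := hs
  -- the constants
  have hk : ∀ c : k, algebraMap k K c ∈ s := by
    intro c
    by_cases hc : c = 0
    · rw [hc, map_zero]; exact s.zero_mem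
    · have h1 := (hz (MvPolynomial.C c) (by rwa [Ne, MvPolynomial.C_eq_zero])).1
      rwa [MvPolynomial.aeval_C] at h1
  have hzs : ∀ i, z i ∈ s := by
    intro i
    have h1 := (hz (MvPolynomial.X i) (MvPolynomial.X_ne_zero i)).1
    rwa [MvPolynomial.aeval_X] at h1
  let ψ : k →+* s := (algebraMap k K).codRestrict s.toSubring hk
  let _ : Algebra k s := ψ.toAlgebra
  let κ := IsLocalRing.ResidueField s
  let ρ : s →+* κ := IsLocalRing.residue s
  have hψ : ∀ c : k, ((algebraMap k s c : s) : K) = algebraMap k K c := fun _ => rfl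
  have hρ : ∀ c : k, algebraMap k κ c = ρ (algebraMap k s c) := fun _ => rfl
  have hnu : ∀ x : s, (x : K) ∈ s.nonunits ↔ ρ x = 0 := by
    intro x
    rw [ValuationSubring.coe_mem_nonunits_iff, IsLocalRing.residue_eq_zero_iff]
  let us : s := ⟨u, hu⟩
  let zs : Fin (n + 1) → s := fun i => ⟨z i, hzs i⟩
  -- polynomials in one variable
  have hX1 : ∀ P : k[X], aeval u P = ((aeval us P : s) : K) := by
    intro P
    have h1 : ((aeval u : k[X] →ₐ[k] K) : k[X] →+* K) =
        (s.subtype : s →+* K).comp ((aeval us : k[X] →ₐ[k] s) : k[X] →+* s) := by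
      apply Polynomial.ringHom_ext
      · intro c
        simp only [RingHom.coe_coe, RingHom.comp_apply, aeval_C]
        exact (hψ c).symm
      · simp only [RingHom.coe_coe, RingHom.comp_apply, aeval_X]
        rfl
    exact congrArg (fun φ : k[X] →+* K => φ P) h1
  have hX2 : ∀ P : k[X], aeval (ρ us) P = ρ (aeval us P) := by
    intro P
    have h1 : ((aeval (ρ us) : k[X] →ₐ[k] κ) : k[X] →+* κ) =
        ρ.comp ((aeval us : k[X] →ₐ[k] s) : k[X] →+* s) := by
      apply Polynomial.ringHom_ext
      · intro c
        simp only [RingHom.coe_coe, RingHom.comp_apply, aeval_C]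
        exact hρ c
      · simp only [RingHom.coe_coe, RingHom.comp_apply, aeval_X]
    exact congrArg (fun φ : k[X] →+* κ => φ P) h1
  have hut : Transcendental k (ρ us) := by
    rw [transcendental_iff]
    intro P hP
    by_contra hP0
    apply htr P hP0
    rw [hX1, hnu, ← hX2, hP]
  have hzi : AlgebraicIndependent k (fun i => ρ (zs i)) := by
    rw [algebraicIndependent_iff]
    intro P hP
    by_contra hP0
    apply (hz P hP0).2
    have h1 : MvPolynomial.aeval z P = ((MvPolynomial.aeval zs P : s) : K) := by
      have h2 : ((MvPolynomial.aeval z : MvPolynomial (Fin (n + 1)) k →ₐ[k] K) :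
          MvPolynomial (Fin (n + 1)) k →+* K) = (s.subtype : s →+* K).comp
          ((MvPolynomial.aeval zs : MvPolynomial (Fin (n + 1)) k →ₐ[k] s) :
          MvPolynomial (Fin (n + 1)) k →+* s) := by
        apply MvPolynomial.ringHom_ext
        · intro c
          simp only [RingHom.coe_coe, RingHom.comp_apply, MvPolynomial.aeval_C]
          exact (hψ c).symm
        · intro i
          simp only [RingHom.coe_coe, RingHom.comp_apply, MvPolynomial.aeval_X]
          rfl
      exact congrArg (fun φ : MvPolynomial (Fin (n + 1)) k →+* K => φ P) h2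
    have h3 : MvPolynomial.aeval (fun i => ρ (zs i)) P = ρ (MvPolynomial.aeval zs P) := by
      have h2 : ((MvPolynomial.aeval (fun i => ρ (zs i)) :
          MvPolynomial (Fin (n + 1)) k →ₐ[k] κ) : MvPolynomial (Fin (n + 1)) k →+* κ) =
          ρ.comp ((MvPolynomial.aeval zs : MvPolynomial (Fin (n + 1)) k →ₐ[k] s) :
          MvPolynomial (Fin (n + 1)) k →+* s) := by
        apply MvPolynomial.ringHom_ext
        · intro c
          simp only [RingHom.coe_coe, RingHom.comp_apply, MvPolynomial.aeval_C]
          exact hρ c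
        · intro i
          simp only [RingHom.coe_coe, RingHom.comp_apply, MvPolynomial.aeval_X]
      exact congrArg (fun φ : MvPolynomial (Fin (n + 1)) k →+* κ => φ P) h2
    rw [h1, hnu, ← h3, hP]
  obtain ⟨w, hw⟩ := n11_exchange n (ρ us) hut _ hzi
  have hlift : ∀ i, ∃ x : s, ρ x = w i := fun i => IsLocalRing.residue_surjective (w i)
  choose y hy using hlift
  refine ⟨fun i => (y i : K), fun P hP => ?_⟩
  have h1 : P.eval₂ ((aeval u : k[X] →ₐ[k] K) : k[X] →+* K) (fun i => (y i : K)) =
      ((P.eval₂ ((aeval us : k[X] →ₐ[k] s) : k[X] →+* s) y : s) : K) := by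
    have h2 : (MvPolynomial.eval₂Hom ((aeval u : k[X] →ₐ[k] K) : k[X] →+* K)
        (fun i => (y i : K))) = (s.subtype : s →+* K).comp
        (MvPolynomial.eval₂Hom ((aeval us : k[X] →ₐ[k] s) : k[X] →+* s) y) := by
      apply MvPolynomial.ringHom_ext
      · intro c
        simp only [RingHom.comp_apply, MvPolynomial.eval₂Hom_C, RingHom.coe_coe]
        exact hX1 c
      · intro i
        simp only [RingHom.comp_apply, MvPolynomial.eval₂Hom_X']
        rfl
    exact congrArg (fun φ : MvPolynomial (Fin n) k[X] →+* K => φ P) h2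
  have h3 : ρ (P.eval₂ ((aeval us : k[X] →ₐ[k] s) : k[X] →+* s) y) =
      P.eval₂ ((aeval (ρ us) : k[X] →ₐ[k] κ) : k[X] →+* κ) w := by
    have h2 : ρ.comp (MvPolynomial.eval₂Hom ((aeval us : k[X] →ₐ[k] s) : k[X] →+* s) y) =
        MvPolynomial.eval₂Hom ((aeval (ρ us) : k[X] →ₐ[k] κ) : k[X] →+* κ) w := by
      apply MvPolynomial.ringHom_ext
      · intro c
        simp only [RingHom.comp_apply, MvPolynomial.eval₂Hom_C, RingHom.coe_coe]
        exact (hX2 c).symm
      · intro i
        simp only [RingHom.comp_apply, MvPolynomial.eval₂Hom_X']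
        exact hy i
    exact congrArg (fun φ : MvPolynomial (Fin n) k[X] →+* κ => φ P) h2
  rw [h1]
  refine ⟨Subtype.coe_prop _, ?_⟩
  rw [hnu, h3]
  exact n11_eval n (ρ us) w hw P hP

end Pool.Agent.H19.UT
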